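import Pool.Agent.TWF.Cyc

set_option autoImplicit false
set_option linter.unusedSectionVars false

/-!
# Bipartite minors of planar graphs are sparse
-/

open Finset

namespace Pool.Agent.TWF

variable {V : Type*} [Fintype V] [DecidableEq V]

/-- A nonzero even set of edges of a simple bipartite graph has at least four edges. -/
lemma four_edges {I J : Type*} [DecidableEq I] [DecidableEq J] {P : Finset (I × J)}
    {y : P → ZMod 2}
    (h1 : ∀ p : P, ∑ q ∈ univ.filter (fun q : P => q.1.1 = p.1.1), y q = 0)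
    (h2 : ∀ p : P, ∑ q ∈ univ.filter (fun q : P => q.1.2 = p.1.2), y q = 0) (hne : y ≠ 0) :
    4 ≤ (univ.filter (fun p => y p ≠ 0)).card := by
  classical
  have g1 : ∀ p : P, y p ≠ 0 → ∃ q : P, y q ≠ 0 ∧ q ≠ p ∧ q.1.1 = p.1.1 := by
    intro p hp
    by_contra hcon
    push Not at hcon
    apply hp
    rw [← h1 p]
    symm
    refine Finset.sum_eq_single p (fun q hq hqp => ?_) (fun h => ?_)
    · by_contra h3
      exact hcon q h3 hqp (mem_filter.1 hq).2
    · exact (h (mem_filter.2 ⟨mem_univ p, rfl⟩)).elim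
  have g2 : ∀ p : P, y p ≠ 0 → ∃ q : P, y q ≠ 0 ∧ q ≠ p ∧ q.1.2 = p.1.2 := by
    intro p hp
    by_contra hcon
    push Not at hcon
    apply hp
    rw [← h2 p]
    symm
    refine Finset.sum_eq_single p (fun q hq hqp => ?_) (fun h => ?_)
    · by_contra h3
      exact hcon q h3 hqp (mem_filter.1 hq).2
    · exact (h (mem_filter.2 ⟨mem_univ p, rfl⟩)).elim
  obtain ⟨p0, hp0⟩ : ∃ p, y p ≠ 0 := by
    by_contra hcon
    push Not at hcon
    exact hne (funext hcon)
  obtain ⟨p1, hp1, h10, ha⟩ := g1 p0 hp0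
  obtain ⟨p2, hp2, h20, hb⟩ := g2 p0 hp0
  obtain ⟨p3, hp3, h31, hc⟩ := g2 p1 hp1
  have hext : ∀ p q : P, p.1.1 = q.1.1 → p.1.2 = q.1.2 → p = q := fun p q h3 h4 =>
    Subtype.ext (Prod.ext h3 h4)
  have n1 : p1.1.2 ≠ p0.1.2 := fun h => h10 (hext _ _ ha h)
  have n2 : p2 ≠ p1 := fun h => n1 (by rw [← h, hb])
  have n3 : p3 ≠ p0 := fun h => n1 (by rw [← hc, h])
  have n4 : p3 ≠ p2 := fun h => n1 (by rw [← hc, h, hb])
  have hsub : ({p0, p1, p2, p3} : Finset P) ⊆ univ.filter (fun p => y p ≠ 0) := by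
    intro p hp
    rw [mem_insert, mem_insert, mem_insert, mem_singleton] at hp
    rw [mem_filter]
    rcases hp with rfl | rfl | rfl | rfl
    · exact ⟨mem_univ _, hp0⟩
    · exact ⟨mem_univ _, hp1⟩
    · exact ⟨mem_univ _, hp2⟩
    · exact ⟨mem_univ _, hp3⟩
  refine le_trans (le_of_eq ?_) (card_le_card hsub)
  rw [card_insert_of_notMem, card_insert_of_notMem, card_insert_of_notMem, card_singleton]
  · rw [mem_singleton]; exact n4.symm
  · rw [mem_insert, mem_singleton, not_or]; exact ⟨n2.symm, h31.symm⟩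
  · rw [mem_insert, mem_insert, mem_singleton, not_or, not_or]
    exact ⟨h10.symm, h20.symm, n3.symm⟩

/-- The dimension of the cycle space of a bipartite graph. -/
lemma dim_bip {I J : Type*} [DecidableEq I] [DecidableEq J] {A : Finset I} {B : Finset J}
    {P : Finset (I × J)} (hP : ∀ p ∈ P, p.1 ∈ A ∧ p.2 ∈ B) {a0 : I} (ha0 : a0 ∈ A)
    {Z : Submodule (ZMod 2) (P → ZMod 2)}
    (hZ : ∀ y : P → ZMod 2, (∀ a ∈ A, ∑ q ∈ univ.filter (fun q : P => q.1.1 = a), y q = 0) →
      (∀ b ∈ B, ∑ q ∈ univ.filter (fun q : P => q.1.2 = b), y q = 0) → y ∈ Z) :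
    P.card + 1 ≤ Module.finrank (ZMod 2) Z + (A.card + B.card) := by
  classical
  let L : (P → ZMod 2) →ₗ[ZMod 2] ((↥(A.erase a0) → ZMod 2) × (↥B → ZMod 2)) :=
    LinearMap.prod
      (LinearMap.pi (fun a => ∑ q ∈ univ.filter (fun q : P => q.1.1 = (a : I)),
        LinearMap.proj q))
      (LinearMap.pi (fun b => ∑ q ∈ univ.filter (fun q : P => q.1.2 = (b : J)),
        LinearMap.proj q))
  have hL1 : ∀ y (a : ↥(A.erase a0)),
      (L y).1 a = ∑ q ∈ univ.filter (fun q : P => q.1.1 = (a : I)), y q := by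
    intro y a
    change (∑ q ∈ univ.filter (fun q : P => q.1.1 = (a : I)),
      (LinearMap.proj q : (P → ZMod 2) →ₗ[ZMod 2] ZMod 2)) y = _
    rw [LinearMap.sum_apply]
    rfl
  have hL2 : ∀ y (b : ↥B),
      (L y).2 b = ∑ q ∈ univ.filter (fun q : P => q.1.2 = (b : J)), y q := by
    intro y b
    change (∑ q ∈ univ.filter (fun q : P => q.1.2 = (b : J)),
      (LinearMap.proj q : (P → ZMod 2) →ₗ[ZMod 2] ZMod 2)) y = _
    rw [LinearMap.sum_apply]
    rfl
  have hker : LinearMap.ker L ≤ Z := by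
    intro y hy
    rw [LinearMap.mem_ker] at hy
    have h2 : ∀ b ∈ B, ∑ q ∈ univ.filter (fun q : P => q.1.2 = b), y q = 0 := by
      intro b hb
      rw [← hL2 y ⟨b, hb⟩, hy]
      rfl
    have h1 : ∀ a ∈ A.erase a0, ∑ q ∈ univ.filter (fun q : P => q.1.1 = a), y q = 0 := by
      intro a ha
      rw [← hL1 y ⟨a, ha⟩, hy]
      rfl
    have h3 : ∑ q, y q = 0 := by
      rw [← Finset.sum_fiberwise_of_maps_to (s := (univ : Finset P)) (t := B)
        (g := fun q => q.1.2) (fun q _ => (hP q.1 q.2).2)]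
      exact Finset.sum_eq_zero h2
    have h4 : ∑ q ∈ univ.filter (fun q : P => q.1.1 = a0), y q = 0 := by
      rw [← Finset.sum_fiberwise_of_maps_to (s := (univ : Finset P)) (t := A)
        (g := fun q => q.1.1) (fun q _ => (hP q.1 q.2).1), ← Finset.add_sum_erase A _ ha0,
        Finset.sum_eq_zero h1, add_zero] at h3
      exact h3
    refine hZ y (fun a ha => ?_) h2
    by_cases h5 : a = a0
    · subst h5
      exact h4
    · exact h1 a (mem_erase.2 ⟨h5, ha⟩)
  have h1 := LinearMap.finrank_range_add_finrank_ker L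
  rw [Module.finrank_fintype_fun_eq_card, Fintype.card_coe] at h1
  have h2 : Module.finrank (ZMod 2) (LinearMap.range L) ≤ (A.erase a0).card + B.card := by
    refine (Submodule.finrank_le _).trans ?_
    rw [Module.finrank_prod, Module.finrank_fintype_fun_eq_card,
      Module.finrank_fintype_fun_eq_card, Fintype.card_coe, Fintype.card_coe]
  have h3 := Submodule.finrank_mono hker
  rw [card_erase_of_mem ha0] at h2
  have h4 : 0 < A.card := card_pos.2 ⟨a0, ha0⟩
  omega

/-- Bipartite minors of a planar graph are sparse. -/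
theorem bipSparse {H : SimpleGraph V} (h : MacLane H) : BipSparse H := by
  classical
  intro 𝒜 ℬ P hA hB hdisj hAB h3 hP
  rcases 𝒜.eq_empty_or_nonempty with hemp | ⟨A0, hA0⟩
  · have h4 : P = ∅ := by
      rw [Finset.eq_empty_iff_forall_notMem]
      intro p hp
      have := (hP p hp).1
      rw [hemp] at this
      simp at this
    rw [h4, hemp]
    rw [hemp] at h3
    simp only [card_empty] at h3 ⊢
    omega
  have huniq : ∀ C ∈ 𝒜 ∪ ℬ, ∀ D ∈ 𝒜 ∪ ℬ, ∀ v, v ∈ C → v ∈ D → C = D := by
    intro C hC D hD v hv1 hv2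
    by_contra hne
    exact (Finset.disjoint_left.1 (hdisj C hC D hD hne)) hv1 hv2
  have hconn : ∀ C ∈ 𝒜 ∪ ℬ, Conn H C := by
    intro C hC
    rw [mem_union] at hC
    rcases hC with hC | hC
    · exact hA C hC
    · exact hB C hC
  have hcross : ∀ C ∈ 𝒜, ∀ D ∈ ℬ, ∀ v, v ∈ C → v ∈ D → False := by
    intro C hC D hD v hv1 hv2
    have h4 := huniq C (mem_union_left _ hC) D (mem_union_right _ hD) v hv1 hv2
    subst h4
    exact (Finset.disjoint_left.1 hAB) hC hD
  have hch : ∀ p : P, ∃ ab : V × V, ab.1 ∈ p.1.1 ∧ ab.2 ∈ p.1.2 ∧ H.Adj ab.1 ab.2 := by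
    intro p
    obtain ⟨a, ha, b, hb, hab⟩ := (hP p.1 p.2).2.2
    exact ⟨(a, b), ha, hb, hab⟩
  choose ab hab using hch
  let g : P → Sym2 V := fun p => s((ab p).1, (ab p).2)
  have hPA : ∀ p : P, p.1.1 ∈ 𝒜 := fun p => (hP p.1 p.2).1
  have hPB : ∀ p : P, p.1.2 ∈ ℬ := fun p => (hP p.1 p.2).2.1
  have hmem1 : ∀ (p : P), ∀ C ∈ 𝒜 ∪ ℬ, ((ab p).1 ∈ C ↔ p.1.1 = C) := by
    intro p C hC
    constructor
    · intro h4
      exact huniq _ (mem_union_left _ (hPA p)) C hC _ (hab p).1 h4
    · rintro rfl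
      exact (hab p).1
  have hmem2 : ∀ (p : P), ∀ C ∈ 𝒜 ∪ ℬ, ((ab p).2 ∈ C ↔ p.1.2 = C) := by
    intro p C hC
    constructor
    · intro h4
      exact huniq _ (mem_union_right _ (hPB p)) C hC _ (hab p).2.1 h4
    · rintro rfl
      exact (hab p).2.1
  have hne12 : ∀ p : P, (ab p).1 ≠ (ab p).2 := fun p => (hab p).2.2.ne
  have hginj : Function.Injective g := by
    intro p q hpq
    change s((ab p).1, (ab p).2) = s((ab q).1, (ab q).2) at hpq
    rw [Sym2.eq_iff] at hpq
    rcases hpq with ⟨h4, h5⟩ | ⟨h4, h5⟩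
    · apply Subtype.ext
      refine Prod.ext ?_ ?_
      · refine huniq _ (mem_union_left _ (hPA p)) _ (mem_union_left _ (hPA q)) _ (hab p).1 ?_
        rw [h4]
        exact (hab q).1
      · refine huniq _ (mem_union_right _ (hPB p)) _ (mem_union_right _ (hPB q)) _ (hab p).2.1 ?_
        rw [h5]
        exact (hab q).2.1
    · exfalso
      refine hcross _ (hPA p) _ (hPB q) _ (hab p).1 ?_
      rw [h4]
      exact (hab q).2.1
  -- the edges inside one of the sets
  let inn : Sym2 V → Prop := fun e => ∃ C ∈ 𝒜 ∪ ℬ, ∀ v ∈ e, v ∈ C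
  have hginn : ∀ p : P, ¬ inn (g p) := by
    rintro p ⟨C, hC, hC2⟩
    have h4 := (hmem1 p C hC).1 (hC2 _ (Sym2.mem_mk_left _ _))
    have h5 := (hmem2 p C hC).1 (hC2 _ (Sym2.mem_mk_right _ _))
    have h6 := hPA p
    have h7 := hPB p
    rw [h4] at h6
    rw [h5] at h7
    exact (Finset.disjoint_left.1 hAB) h6 h7
  obtain ⟨W', hW', hmem⟩ := restrict_set h
    (univ.filter (fun e => ¬ inn e ∧ ¬ ∃ p, g p = e))
  have hW : ∀ z, z ∈ W' → (∀ e, e ∉ H.edgeSet → z e = 0) ∧ bd z = 0 ∧
      ∀ e, ¬ inn e → (∀ p, g p ≠ e) → z e = 0 := by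
    intro z hz
    rw [hmem, mem_cyc] at hz
    refine ⟨hz.1.1, hz.1.2, fun e he1 he2 => hz.2 e ?_⟩
    rw [mem_filter]
    exact ⟨mem_univ _, he1, fun ⟨p, hp⟩ => he2 p hp⟩
  -- the relations
  have hrel : ∀ z, z ∈ W' → ∀ C ∈ 𝒜 ∪ ℬ, ∑ p : P, ((if p.1.1 = C then 1 else 0) +
      (if p.1.2 = C then 1 else 0)) * z (g p) = 0 := by
    intro z hz C hC
    obtain ⟨h4, h5, h6⟩ := hW z hz
    have h7 := sum_bd z C
    rw [h5] at h7
    simp only [Pi.zero_apply, Finset.sum_const_zero] at h7
    have h8 : ∑ e, ends C e * z e = ∑ e ∈ univ.image g, ends C e * z e := by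
      symm
      refine Finset.sum_subset (subset_univ _) fun e _ he => ?_
      by_cases h9 : e ∈ H.edgeSet
      · by_cases h10 : inn e
        · obtain ⟨D, hD, hD2⟩ := h10
          have h11 : ends C e = 0 := by
            induction e using Sym2.ind with
            | _ a b =>
              rw [SimpleGraph.mem_edgeSet] at h9
              have hadj : H.Adj a b := h9
              have haD := hD2 a (Sym2.mem_mk_left _ _)
              have hbD := hD2 b (Sym2.mem_mk_right _ _)
              rw [ends_mk hadj.ne]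
              by_cases h12 : a ∈ C
              · have h13 := huniq C hC D hD a h12 haD
                subst h13
                rw [if_pos haD, if_pos hbD]
                decide
              · have h13 : b ∉ C := by
                  intro h14
                  have h15 := huniq C hC D hD b h14 hbD
                  subst h15
                  exact h12 haD
                rw [if_neg h12, if_neg h13]
                decide
          rw [h11, zero_mul]
        · rw [h6 e h10, mul_zero]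
          intro p hp
          exact he (mem_image.2 ⟨p, mem_univ _, hp⟩)
      · rw [h4 e h9, mul_zero]
    rw [h8, Finset.sum_image (fun p _ q _ hpq => hginj hpq)] at h7
    refine Eq.trans ?_ h7.symm
    refine Finset.sum_congr rfl fun p _ => ?_
    congr 1
    change _ = ends C s((ab p).1, (ab p).2)
    rw [ends_mk (hne12 p), if_congr (hmem1 p C hC) rfl rfl, if_congr (hmem2 p C hC) rfl rfl]
  have hrelA : ∀ z, z ∈ W' → ∀ A ∈ 𝒜,
      ∑ p ∈ univ.filter (fun p : P => p.1.1 = A), z (g p) = 0 := by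
    intro z hz A hAm
    rw [← hrel z hz A (mem_union_left _ hAm), Finset.sum_filter]
    refine Finset.sum_congr rfl fun p _ => ?_
    have h4 : p.1.2 ≠ A := by
      intro h5
      have h6 := hPB p
      rw [h5] at h6
      exact (Finset.disjoint_left.1 hAB) hAm h6
    rw [if_neg h4, add_zero]
    by_cases h5 : p.1.1 = A
    · rw [if_pos h5, if_pos h5, one_mul]
    · rw [if_neg h5, if_neg h5, zero_mul]
  have hrelB : ∀ z, z ∈ W' → ∀ B ∈ ℬ,
      ∑ p ∈ univ.filter (fun p : P => p.1.2 = B), z (g p) = 0 := by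
    intro z hz B hBm
    rw [← hrel z hz B (mem_union_right _ hBm), Finset.sum_filter]
    refine Finset.sum_congr rfl fun p _ => ?_
    have h4 : p.1.1 ≠ B := by
      intro h5
      have h6 := hPA p
      rw [h5] at h6
      exact (Finset.disjoint_left.1 hAB) h6 hBm
    rw [if_neg h4, zero_add]
    by_cases h5 : p.1.2 = B
    · rw [if_pos h5, if_pos h5, one_mul]
    · rw [if_neg h5, if_neg h5, zero_mul]
  have hZ := project hW' g
  set Z := W'.map (LinearMap.funLeft (ZMod 2) (ZMod 2) g) with hZdef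
  have hfour : ∀ y ∈ Z, y ≠ 0 → 4 ≤ (univ.filter (fun p => y p ≠ 0)).card := by
    rintro y hy hne
    rw [hZdef, Submodule.mem_map] at hy
    obtain ⟨z, hz, rfl⟩ := hy
    exact four_edges (fun p => hrelA z hz _ (hPA p)) (fun p => hrelB z hz _ (hPB p)) hne
  have hlift : ∀ y : P → ZMod 2,
      (∀ a ∈ 𝒜, ∑ q ∈ univ.filter (fun q : P => q.1.1 = a), y q = 0) →
      (∀ b ∈ ℬ, ∑ q ∈ univ.filter (fun q : P => q.1.2 = b), y q = 0) → y ∈ Z := by
    intro y hy1 hy2
    let z0 : Sym2 V → ZMod 2 := ∑ p, y p • Pi.single (g p) 1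
    have hz0g : ∀ p, z0 (g p) = y p := by
      intro p
      change (∑ p, y p • Pi.single (g p) (1 : ZMod 2) : Sym2 V → ZMod 2) (g p) = y p
      rw [Finset.sum_apply, Finset.sum_eq_single p]
      · simp
      · intro q _ hqp
        have : g p ≠ g q := fun h4 => hqp (hginj h4.symm)
        rw [Pi.smul_apply, Pi.single_eq_of_ne this, smul_zero]
      · intro h4
        exact absurd (mem_univ p) h4
    have hz0n : ∀ e, (∀ p, g p ≠ e) → z0 e = 0 := by
      intro e he
      change (∑ p, y p • Pi.single (g p) (1 : ZMod 2) : Sym2 V → ZMod 2) e = 0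
      rw [Finset.sum_apply]
      refine Finset.sum_eq_zero fun p _ => ?_
      rw [Pi.smul_apply, Pi.single_eq_of_ne (he p).symm, smul_zero]
    have hbd0 : bd z0 = ∑ p, y p • (Pi.single (ab p).1 1 + Pi.single (ab p).2 1) := by
      change bd (∑ p, y p • Pi.single (g p) (1 : ZMod 2)) = _
      rw [map_sum]
      refine Finset.sum_congr rfl fun p _ => ?_
      rw [map_smul]
      congr 1
      exact bd_single (hne12 p)
    have hout : ∀ v, (∀ C ∈ 𝒜 ∪ ℬ, v ∉ C) → bd z0 v = 0 := by
      intro v hv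
      rw [hbd0, Finset.sum_apply]
      refine Finset.sum_eq_zero fun p _ => ?_
      have h4 : v ≠ (ab p).1 := by
        rintro rfl
        exact hv _ (mem_union_left _ (hPA p)) (hab p).1
      have h5 : v ≠ (ab p).2 := by
        rintro rfl
        exact hv _ (mem_union_right _ (hPB p)) (hab p).2.1
      rw [Pi.smul_apply, Pi.add_apply, Pi.single_eq_of_ne h4, Pi.single_eq_of_ne h5, add_zero,
        smul_zero]
    have hsumC : ∀ C ∈ 𝒜 ∪ ℬ, ∑ v ∈ C, bd z0 v = 0 := by
      intro C hC
      rw [sum_bd]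
      have h8 : ∑ e, ends C e * z0 e = ∑ e ∈ univ.image g, ends C e * z0 e := by
        symm
        refine Finset.sum_subset (subset_univ _) fun e _ he => ?_
        rw [hz0n e, mul_zero]
        intro p hp
        exact he (mem_image.2 ⟨p, mem_univ _, hp⟩)
      rw [h8, Finset.sum_image (fun p _ q _ hpq => hginj hpq)]
      have h9 : ∑ p, ends C (g p) * z0 (g p) =
          ∑ p, ((if p.1.1 = C then y p else 0) + (if p.1.2 = C then y p else 0)) := by
        refine Finset.sum_congr rfl fun p _ => ?_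
        rw [hz0g]
        change ends C s((ab p).1, (ab p).2) * y p = _
        rw [ends_mk (hne12 p), if_congr (hmem1 p C hC) rfl rfl,
          if_congr (hmem2 p C hC) rfl rfl, add_mul]
        congr 1
        · by_cases h5 : p.1.1 = C
          · rw [if_pos h5, if_pos h5, one_mul]
          · rw [if_neg h5, if_neg h5, zero_mul]
        · by_cases h5 : p.1.2 = C
          · rw [if_pos h5, if_pos h5, one_mul]
          · rw [if_neg h5, if_neg h5, zero_mul]
      rw [h9, Finset.sum_add_distrib, ← Finset.sum_filter, ← Finset.sum_filter]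
      rw [mem_union] at hC
      rcases hC with hC | hC
      · rw [hy1 C hC, zero_add]
        refine Finset.sum_eq_zero fun p hp => ?_
        exfalso
        have h5 := hPB p
        rw [(mem_filter.1 hp).2] at h5
        exact (Finset.disjoint_left.1 hAB) hC h5
      · rw [hy2 C hC, add_zero]
        refine Finset.sum_eq_zero fun p hp => ?_
        exfalso
        have h5 := hPA p
        rw [(mem_filter.1 hp).2] at h5
        exact (Finset.disjoint_left.1 hAB) h5 hC
    have hlc : ∀ C : Finset V, ∃ z : Sym2 V → ZMod 2, C ∈ 𝒜 ∪ ℬ →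
        ((∀ e, z e ≠ 0 → e ∈ H.edgeSet ∧ ∀ v ∈ e, v ∈ C) ∧
          bd z = fun v => if v ∈ C then bd z0 v else 0) := by
      intro C
      by_cases hC : C ∈ 𝒜 ∪ ℬ
      · obtain ⟨z, hz⟩ := conn_lift (hconn C hC)
          (f := fun v => if v ∈ C then bd z0 v else 0) (fun v hv => if_neg hv) (by
            rw [← hsumC C hC]
            exact Finset.sum_congr rfl fun v hv => if_pos hv)
        exact ⟨z, fun _ => hz⟩
      · exact ⟨0, fun h4 => absurd h4 hC⟩
    choose w hw using hlc
    rw [hZdef, Submodule.mem_map]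
    refine ⟨z0 + ∑ C ∈ 𝒜 ∪ ℬ, w C, ?_, ?_⟩
    · rw [hmem, mem_cyc]
      have hwe : ∀ e, (∑ C ∈ 𝒜 ∪ ℬ, w C) e ≠ 0 → e ∈ H.edgeSet ∧ inn e := by
        intro e he
        rw [Finset.sum_apply] at he
        obtain ⟨C, hC, hne⟩ := Finset.exists_ne_zero_of_sum_ne_zero he
        exact ⟨((hw C hC).1 e hne).1, C, hC, ((hw C hC).1 e hne).2⟩
      refine ⟨⟨fun e he => ?_, ?_⟩, fun e he => ?_⟩
      · rw [Pi.add_apply, hz0n e ?_, zero_add]
        · by_contra h5
          exact he (hwe e h5).1
        · rintro p rfl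
          exact he (hab p).2.2
      · have hms : bd (∑ C ∈ 𝒜 ∪ ℬ, w C) = ∑ C ∈ 𝒜 ∪ ℬ, bd (w C) := map_sum _ _ _
        rw [map_add, hms]
        funext v
        rw [Pi.add_apply, Finset.sum_apply, Pi.zero_apply]
        have h5 : ∑ C ∈ 𝒜 ∪ ℬ, bd (w C) v = ∑ C ∈ 𝒜 ∪ ℬ, (if v ∈ C then bd z0 v else 0) := by
          refine Finset.sum_congr rfl fun C hC => ?_
          rw [(hw C hC).2]
        rw [h5]
        by_cases h6 : ∃ C ∈ 𝒜 ∪ ℬ, v ∈ C
        · obtain ⟨C, hC, hvC⟩ := h6
          rw [Finset.sum_eq_single C, if_pos hvC]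
          · exact CharTwo.add_self_eq_zero _
          · intro D hD hDC
            exact if_neg fun h7 => hDC (huniq D hD C hC v h7 hvC)
          · intro h7
            exact absurd hC h7
        · push Not at h6
          rw [hout v h6, zero_add]
          exact Finset.sum_eq_zero fun C hC => if_neg (h6 C hC)
      · rw [mem_filter] at he
        rw [Pi.add_apply, hz0n e (fun p hp => he.2.2 ⟨p, hp⟩), zero_add]
        by_contra h5
        exact he.2.1 (hwe e h5).2
    · funext p
      change (z0 + ∑ C ∈ 𝒜 ∪ ℬ, w C) (g p) = y p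
      rw [Pi.add_apply, hz0g]
      have h5 : (∑ C ∈ 𝒜 ∪ ℬ, w C) (g p) = 0 := by
        rw [Finset.sum_apply]
        refine Finset.sum_eq_zero fun C hC => ?_
        by_contra h6
        exact hginn p ⟨C, hC, ((hw C hC).1 _ h6).2⟩
      rw [h5, add_zero]
  have hdim := dim_bip (A := 𝒜) (B := ℬ) (P := P) (fun p hp => ⟨(hP p hp).1, (hP p hp).2.1⟩)
    hA0 hlift
  by_cases hbot : Z = ⊥
  · rw [hbot, finrank_bot] at hdim
    omega
  · have hcount := two_count hZ hfour hbot
    rw [Fintype.card_coe] at hcount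
    omega

end Pool.Agent.TWF
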