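import Mathlib

set_option autoImplicit false
set_option linter.unusedSectionVars false

/-!
# Components of induced subgraphs as finite sets
-/

open Finset

namespace Pool.Agent.TWF

variable {V : Type*} [Fintype V] [DecidableEq V]

/-- `C` is a union of components of the graph induced on `R`. -/
def Closed (G : SimpleGraph V) (R C : Finset V) : Prop :=
  C ⊆ R ∧ ∀ a ∈ C, ∀ b ∈ R, G.Adj a b → b ∈ C

/-- The component of `v` in the graph induced on `R`. -/
noncomputable def comp (G : SimpleGraph V) (R : Finset V) (v : V) : Finset V := by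
  classical exact R.filter (fun w => ∀ C, Closed G R C → v ∈ C → w ∈ C)

/-- The components of the graph induced on `R`. -/
noncomputable def atoms (G : SimpleGraph V) (R : Finset V) : Finset (Finset V) :=
  R.image (comp G R)

variable {G : SimpleGraph V} {R R' C D : Finset V} {u v w : V}

lemma comp_subset : comp G R v ⊆ R := by
  classical
  unfold comp
  exact filter_subset _ _

lemma mem_comp : w ∈ comp G R v ↔ w ∈ R ∧ ∀ C, Closed G R C → v ∈ C → w ∈ C := by
  unfold comp
  simp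

lemma self_mem_comp (h : v ∈ R) : v ∈ comp G R v := mem_comp.2 ⟨h, fun _ _ h => h⟩

lemma closed_comp : Closed G R (comp G R v) := by
  refine ⟨comp_subset, fun a ha b hb hab => mem_comp.2 ⟨hb, fun C hC hv => ?_⟩⟩
  exact hC.2 a ((mem_comp.1 ha).2 C hC hv) b hb hab

lemma Closed.sdiff (h : Closed G R C) : Closed G R (R \ C) := by
  refine ⟨sdiff_subset, fun a ha b hb hab => ?_⟩
  rw [mem_sdiff] at ha ⊢
  exact ⟨hb, fun hbC => ha.2 (h.2 b hbC a ha.1 hab.symm)⟩

lemma comp_min (h : Closed G R C) (hv : v ∈ C) : comp G R v ⊆ C :=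
  fun _ hw => (mem_comp.1 hw).2 C h hv

lemma comp_eq_of_mem (hv : v ∈ R) (hw : w ∈ comp G R v) : comp G R w = comp G R v := by
  have h1 : comp G R w ⊆ comp G R v := comp_min closed_comp hw
  refine Subset.antisymm h1 (comp_min closed_comp ?_)
  by_contra hvw
  have h2 : comp G R v ⊆ R \ comp G R w :=
    comp_min closed_comp.sdiff (mem_sdiff.2 ⟨hv, hvw⟩)
  exact (mem_sdiff.1 (h2 hw)).2 (self_mem_comp (comp_subset hw))

lemma mem_atoms : C ∈ atoms G R ↔ ∃ v ∈ R, comp G R v = C := by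
  unfold atoms
  simp

lemma comp_mem_atoms (h : v ∈ R) : comp G R v ∈ atoms G R := mem_atoms.2 ⟨v, h, rfl⟩

lemma atoms_closed (h : C ∈ atoms G R) : Closed G R C := by
  obtain ⟨v, -, rfl⟩ := mem_atoms.1 h
  exact closed_comp

lemma atoms_subset (h : C ∈ atoms G R) : C ⊆ R := (atoms_closed h).1

lemma atoms_nonempty (h : C ∈ atoms G R) : C.Nonempty := by
  obtain ⟨v, hv, rfl⟩ := mem_atoms.1 h
  exact ⟨v, self_mem_comp hv⟩

lemma atoms_eq_comp (h : C ∈ atoms G R) (hv : v ∈ C) : C = comp G R v := by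
  obtain ⟨w, hw, rfl⟩ := mem_atoms.1 h
  exact (comp_eq_of_mem hw hv).symm

lemma atoms_eq (hC : C ∈ atoms G R) (hD : D ∈ atoms G R) (h1 : v ∈ C) (h2 : v ∈ D) : C = D := by
  rw [atoms_eq_comp hC h1, ← atoms_eq_comp hD h2]

lemma atoms_min (hC : C ∈ atoms G R) (hD : Closed G R D) (h : ∃ v ∈ C, v ∈ D) : C ⊆ D := by
  obtain ⟨v, hv, hvD⟩ := h
  rw [atoms_eq_comp hC hv]
  exact comp_min hD hvD

lemma atoms_filter (hC : C ∈ atoms G R) : R.filter (fun v => comp G R v = C) = C := by
  ext v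
  rw [mem_filter]
  constructor
  · rintro ⟨hv, rfl⟩
    exact self_mem_comp hv
  · intro hv
    exact ⟨atoms_subset hC hv, (atoms_eq_comp hC hv).symm⟩

lemma sum_atoms {M : Type*} [AddCommMonoid M] (f : V → M) :
    ∑ C ∈ atoms G R, ∑ v ∈ C, f v = ∑ v ∈ R, f v := by
  rw [← Finset.sum_fiberwise_of_maps_to (t := atoms G R) (g := comp G R)
    (fun v hv => comp_mem_atoms hv) f]
  refine Finset.sum_congr rfl fun C hC => ?_
  rw [atoms_filter hC]

/-- A component which stays closed in a larger set stays a component. -/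
lemma atoms_persist (hRR : R ⊆ R') (hC : C ∈ atoms G R)
    (h : ∀ a ∈ C, ∀ b ∈ R', G.Adj a b → b ∈ C) : C ∈ atoms G R' := by
  obtain ⟨v, hv, rfl⟩ := mem_atoms.1 hC
  have hcl : Closed G R' (comp G R v) := ⟨comp_subset.trans hRR, h⟩
  have h1 : comp G R' v ⊆ comp G R v := comp_min hcl (self_mem_comp hv)
  have h2 : Closed G R (comp G R' v) :=
    ⟨h1.trans comp_subset, fun a ha b hb hab => closed_comp.2 a ha b (hRR hb) hab⟩
  have h3 : comp G R v ⊆ comp G R' v := comp_min h2 (self_mem_comp (hRR hv))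
  rw [Subset.antisymm h3 h1]
  exact comp_mem_atoms (hRR hv)

/-- The components of `R` with an odd number of vertices. -/
noncomputable def odds (G : SimpleGraph V) (R : Finset V) : Finset (Finset V) :=
  (atoms G R).filter (fun C => Odd C.card)

lemma mem_odds : C ∈ odds G R ↔ C ∈ atoms G R ∧ Odd C.card := by
  unfold odds
  simp

lemma odds_parity : Odd (odds G R).card ↔ Odd R.card := by
  have h : R.card = ∑ C ∈ atoms G R, C.card := by
    rw [Finset.card_eq_sum_ones, ← sum_atoms (G := G) (R := R) (fun _ => 1)]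
    refine Finset.sum_congr rfl fun C _ => ?_
    rw [Finset.card_eq_sum_ones]
  rw [h, Finset.odd_sum_iff_odd_card_odd]
  unfold odds
  rfl

lemma walk_mem {H : SimpleGraph V} {U : Set V} {a b : ((⊤ : H.Subgraph).deleteVerts U).verts}
    (p : ((⊤ : H.Subgraph).deleteVerts U).coe.Walk a b) (hC : Closed H R C)
    (hR : ∀ x : V, x ∉ U → x ∈ R) (ha : (a : V) ∈ C) : (b : V) ∈ C := by
  induction p with
  | nil => exact ha
  | @cons x y z h q ih =>
    refine ih (hC.2 _ ha _ (hR _ ?_) ?_)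
    · have h1 : (y : V) ∈ (⊤ : H.Subgraph).verts \ U := y.2
      exact h1.2
    · have h' : ((⊤ : H.Subgraph).deleteVerts U).Adj x y := h
      rw [SimpleGraph.Subgraph.deleteVerts_adj] at h'
      simpa using h'.2.2.2.2

/-- Tutte's theorem for our components. -/
theorem tutte' (H : SimpleGraph V) (h : ¬ ∃ M : H.Subgraph, M.IsPerfectMatching) :
    ∃ U : Finset V, U.card < (odds H Uᶜ).card := by
  classical
  rw [SimpleGraph.tutte] at h
  push Not at h
  obtain ⟨u, hu⟩ := h
  refine ⟨u.toFinset, ?_⟩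
  unfold SimpleGraph.IsTutteViolator at hu
  rw [Set.ncard_eq_toFinset_card' u] at hu
  refine lt_of_lt_of_le hu ?_
  set K := ((⊤ : H.Subgraph).deleteVerts u).coe with hK
  let f : K.ConnectedComponent → Finset V := fun c =>
    (c.supp.toFinset).map ⟨Subtype.val, Subtype.val_injective⟩
  have hf : ∀ c : K.ConnectedComponent, ∀ x : V, x ∈ f c ↔
      ∃ h : x ∈ ((⊤ : H.Subgraph).deleteVerts u).verts, K.connectedComponentMk ⟨x, h⟩ = c := by
    intro c x
    simp only [f, mem_map, Set.mem_toFinset, SimpleGraph.ConnectedComponent.mem_supp_iff,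
      Function.Embedding.coeFn_mk, Subtype.exists, exists_and_right, exists_eq_right]
  have hfc : ∀ c : K.ConnectedComponent, (f c).card = c.supp.ncard := by
    intro c
    simp only [f, card_map]
    rw [Set.ncard_eq_toFinset_card']
  have hat : ∀ c : K.ConnectedComponent, f c ∈ atoms H (u.toFinset)ᶜ := by
    intro c
    obtain ⟨⟨x, hx⟩, rfl⟩ := c.exists_rep
    have hxu : x ∉ u := by
      have h1 : x ∈ (⊤ : H.Subgraph).verts \ u := hx
      exact h1.2
    have hxR : x ∈ (u.toFinset)ᶜ := by simpa using hxu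
    refine mem_atoms.2 ⟨x, hxR, ?_⟩
    refine Subset.antisymm (comp_min ⟨?_, ?_⟩ ?_) ?_
    · intro y hy
      obtain ⟨hy1, -⟩ := (hf _ _).1 hy
      simp at hy1
      simpa using hy1
    · intro a ha b hb hab
      obtain ⟨ha1, ha2⟩ := (hf _ _).1 ha
      have hb1 : b ∈ ((⊤ : H.Subgraph).deleteVerts u).verts := by
        simp at hb ⊢
        exact hb
      refine (hf _ _).2 ⟨hb1, ?_⟩
      rw [← ha2]
      refine SimpleGraph.ConnectedComponent.sound ?_
      refine (SimpleGraph.Adj.reachable ?_).symm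
      change ((⊤ : H.Subgraph).deleteVerts u).Adj a b
      rw [SimpleGraph.Subgraph.deleteVerts_adj]
      simp at ha1 hb1
      simp [ha1, hb1, hab]
    · exact (hf _ _).2 ⟨hx, rfl⟩
    · intro y hy
      obtain ⟨hy1, hy2⟩ := (hf _ _).1 hy
      have hreach : K.Reachable ⟨x, hx⟩ ⟨y, hy1⟩ :=
        (SimpleGraph.ConnectedComponent.exact hy2).symm
      obtain ⟨p⟩ := hreach
      exact walk_mem p (closed_comp (G := H) (R := (u.toFinset)ᶜ) (v := x))
        (fun z hz => by simpa using hz) (self_mem_comp hxR)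
  have hinj : Function.Injective f := by
    intro c c' hcc
    obtain ⟨⟨x, hx⟩, rfl⟩ := c.exists_rep
    have h1 : x ∈ f c' := by
      rw [← hcc]
      exact (hf _ _).2 ⟨hx, rfl⟩
    obtain ⟨h2, h3⟩ := (hf _ _).1 h1
    exact h3
  rw [← Set.ncard_coe_finset (odds H (u.toFinset)ᶜ)]
  refine Set.ncard_le_ncard_of_injOn f ?_ hinj.injOn (Finset.finite_toSet _)
  intro c hc
  have hc' : Odd c.supp.ncard := hc
  rw [mem_coe, mem_odds, hfc]
  exact ⟨hat c, hc'⟩

/-- A minimal barrier. -/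
theorem barrier (H : SimpleGraph V) (hev : Even (Fintype.card V))
    (h : ¬ ∃ M : H.Subgraph, M.IsPerfectMatching) :
    ∃ U : Finset V, U.card < (odds H Uᶜ).card ∧
      ∀ u ∈ U, ∃ C₁ C₂ C₃, C₁ ∈ atoms H Uᶜ ∧ C₂ ∈ atoms H Uᶜ ∧ C₃ ∈ atoms H Uᶜ ∧
        C₁ ≠ C₂ ∧ C₁ ≠ C₃ ∧ C₂ ≠ C₃ ∧ (∃ a ∈ C₁, H.Adj a u) ∧ (∃ a ∈ C₂, H.Adj a u) ∧
        (∃ a ∈ C₃, H.Adj a u) := by
  classical
  have hex : ∃ n : ℕ, ∃ U : Finset V, U.card = n ∧ U.card < (odds H Uᶜ).card := by
    obtain ⟨U, hU⟩ := tutte' H h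
    exact ⟨_, U, rfl, hU⟩
  obtain ⟨U, hUn, hU⟩ := Nat.find_spec hex
  refine ⟨U, hU, fun u hu => ?_⟩
  have hmin : ¬ ((U.erase u).card < (odds H (U.erase u)ᶜ).card) := by
    intro hlt
    refine Nat.find_min hex (m := (U.erase u).card) ?_ ⟨U.erase u, rfl, hlt⟩
    rw [← hUn]
    exact card_erase_lt_of_mem hu
  push Not at hmin
  have hins : (U.erase u)ᶜ = insert u Uᶜ := by
    ext x
    simp only [mem_compl, mem_erase, mem_insert]
    tauto
  have hR : Uᶜ ⊆ (U.erase u)ᶜ := by rw [hins]; exact subset_insert _ _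
  set k := ((odds H Uᶜ).filter (fun C => ∃ a ∈ C, H.Adj a u)) with hk
  have hsub : (odds H Uᶜ) \ k ⊆ odds H (U.erase u)ᶜ := by
    intro C hC
    rw [mem_sdiff, hk, mem_filter, mem_odds] at hC
    have hno : ∀ a ∈ C, ¬ H.Adj a u := by
      intro a ha hau
      exact hC.2 ⟨hC.1, a, ha, hau⟩
    refine mem_odds.2 ⟨atoms_persist hR hC.1.1 ?_, hC.1.2⟩
    intro a ha b hb hab
    rw [hins, mem_insert] at hb
    rcases hb with rfl | hb
    · exact absurd hab (hno a ha)
    · exact (atoms_closed hC.1.1).2 a ha b hb hab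
  have hc1 : (odds H Uᶜ).card - k.card ≤ (odds H (U.erase u)ᶜ).card :=
    (Finset.le_card_sdiff k (odds H Uᶜ)).trans (card_le_card hsub)
  rw [card_erase_of_mem hu] at hmin
  have hUpos : 0 < U.card := card_pos.2 ⟨u, hu⟩
  have hpar : Odd (odds H Uᶜ).card ↔ Odd U.card := by
    rw [odds_parity, card_compl]
    have hle : U.card ≤ Fintype.card V := card_le_univ U
    rw [Nat.odd_sub hle]
    constructor
    · intro h'
      by_contra h2
      rw [Nat.not_odd_iff_even] at h2
      exact (Nat.not_odd_iff_even.2 hev) (h'.2 h2)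
    · intro h'
      constructor
      · intro h3
        exact absurd hev (Nat.not_even_iff_odd.2 h3)
      · intro h3
        exact absurd h3 (Nat.not_even_iff_odd.2 h')
  have h2 : U.card + 2 ≤ (odds H Uᶜ).card := by
    rcases Nat.lt_or_ge (U.card + 1) (odds H Uᶜ).card with h3 | h3
    · exact h3
    · have h4 : (odds H Uᶜ).card = U.card + 1 := by omega
      rw [h4] at hpar
      rcases Nat.even_or_odd U.card with h5 | h5
      · exact absurd (hpar.1 h5.add_one) (Nat.not_odd_iff_even.2 h5)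
      · exact absurd (hpar.2 h5) (Nat.not_odd_iff_even.2 h5.add_one)
  have h3 : 2 < k.card := by omega
  obtain ⟨C₁, C₂, C₃, h1, h2', h3', h12, h13, h23⟩ := Finset.two_lt_card_iff.1 h3
  rw [hk, mem_filter, mem_odds] at h1 h2' h3'
  exact ⟨C₁, C₂, C₃, h1.1.1, h2'.1.1, h3'.1.1, h12, h13, h23, h1.2, h2'.2, h3'.2⟩

end Pool.Agent.TWF
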