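import Pool.Agent.TWF.Gadget

set_option autoImplicit false
set_option linter.unusedSectionVars false

/-!
# The barrier of a graph without 2-factor, second part
-/

open Finset

namespace Pool.Agent.TWF

variable {V : Type*} [Fintype V] [DecidableEq V]

/-- The components of `G - S - T` which send an odd number of edges to `T`. -/
noncomputable def oc (G : SimpleGraph V) (S T : Finset V) : Finset (Finset V) :=
  (atoms G (S ∪ T)ᶜ).filter (fun C => Odd (ee G C T))

lemma mem_oc {G : SimpleGraph V} {S T C : Finset V} :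
    C ∈ oc G S T ↔ C ∈ atoms G (S ∪ T)ᶜ ∧ Odd (ee G C T) := by
  unfold oc
  simp

section barrier

variable {G : SimpleGraph V} [DecidableRel G.Adj] {U : Finset ((V × Bool) ⊕ G.Dart)}

/-- The property of the minimal barrier. -/
def MinB (G : SimpleGraph V) [DecidableRel G.Adj] (U : Finset ((V × Bool) ⊕ G.Dart)) : Prop :=
  ∀ u ∈ U, ∃ C₁ C₂ C₃, C₁ ∈ atoms (gad G) Uᶜ ∧ C₂ ∈ atoms (gad G) Uᶜ ∧
    C₃ ∈ atoms (gad G) Uᶜ ∧
    C₁ ≠ C₂ ∧ C₁ ≠ C₃ ∧ C₂ ≠ C₃ ∧ (∃ a ∈ C₁, (gad G).Adj a u) ∧ (∃ a ∈ C₂, (gad G).Adj a u) ∧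
    (∃ a ∈ C₃, (gad G).Adj a u)

lemma adj_inl {a : (V × Bool) ⊕ G.Dart} {p : V × Bool} (h : (gad G).Adj a (Sum.inl p)) :
    ∃ d : G.Dart, a = Sum.inr d ∧ d.fst = p.1 := by
  rcases a with q | d
  · exact absurd h (gad_inl_inl G _ _)
  · exact ⟨d, rfl, h⟩

lemma adj_inr {a : (V × Bool) ⊕ G.Dart} {d : G.Dart} (h : (gad G).Adj a (Sum.inr d)) :
    a = Sum.inl (d.fst, false) ∨ a = Sum.inl (d.fst, true) ∨ a = Sum.inr d.symm := by
  rcases a with ⟨x, i⟩ | e
  · have h1 : d.fst = x := h
    subst h1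
    cases i <;> simp
  · have h1 : d = e.symm := h
    right; right
    rw [h1, SimpleGraph.Dart.symm_symm]

lemma core_core (hU : MinB G U) {v : V} {i : Bool} (h : Sum.inl (v, i) ∈ U) (j : Bool) :
    Sum.inl (v, j) ∈ U := by
  by_contra hj
  obtain ⟨C₁, C₂, C₃, h1, h2, -, h12, -, -, ⟨a, ha, ha'⟩, ⟨b, hb, hb'⟩, -⟩ := hU _ h
  obtain ⟨d, rfl, hd⟩ := adj_inl ha'
  obtain ⟨e, rfl, he⟩ := adj_inl hb'
  have hjR : (Sum.inl (v, j) : (V × Bool) ⊕ G.Dart) ∈ Uᶜ := mem_compl.2 hj
  have m1 := (atoms_closed h1).2 _ ha _ hjR ((gad_inr_inl G (v, j) d).2 hd)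
  have m2 := (atoms_closed h2).2 _ hb _ hjR ((gad_inr_inl G (v, j) e).2 he)
  exact h12 (atoms_eq h1 h2 m1 m2)

lemma dart_sep (hU : MinB G U) {d : G.Dart} (h : Sum.inr d ∈ U) :
    ∃ P Q, P ∈ atoms (gad G) Uᶜ ∧ Q ∈ atoms (gad G) Uᶜ ∧ P ≠ Q ∧
      Sum.inl (d.fst, false) ∈ P ∧ Sum.inl (d.fst, true) ∈ Q := by
  obtain ⟨C₁, C₂, C₃, h1, h2, h3, h12, h13, h23, ⟨a, ha, ha'⟩, ⟨b, hb, hb'⟩, ⟨c, hc, hc'⟩⟩ :=
    hU _ h
  have hab : a ≠ b := by
    rintro rfl
    exact h12 (atoms_eq h1 h2 ha hb)
  have hac : a ≠ c := by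
    rintro rfl
    exact h13 (atoms_eq h1 h3 ha hc)
  have hbc : b ≠ c := by
    rintro rfl
    exact h23 (atoms_eq h2 h3 hb hc)
  rcases adj_inr ha' with rfl | rfl | rfl <;> rcases adj_inr hb' with rfl | rfl | rfl <;>
    rcases adj_inr hc' with rfl | rfl | rfl
  all_goals first
    | exact absurd rfl hab
    | exact absurd rfl hac
    | exact absurd rfl hbc
    | exact ⟨C₁, C₂, h1, h2, h12, ha, hb⟩
    | exact ⟨C₁, C₃, h1, h3, h13, ha, hc⟩
    | exact ⟨C₂, C₁, h2, h1, h12.symm, hb, ha⟩
    | exact ⟨C₂, C₃, h2, h3, h23, hb, hc⟩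
    | exact ⟨C₃, C₁, h3, h1, h13.symm, hc, ha⟩
    | exact ⟨C₃, C₂, h3, h2, h23.symm, hc, hb⟩

lemma dart_core (hU : MinB G U) {d : G.Dart} (h : Sum.inr d ∈ U) (j : Bool) :
    Sum.inl (d.fst, j) ∉ U := by
  obtain ⟨P, Q, hP, hQ, -, h1, h2⟩ := dart_sep hU h
  cases j
  · exact mem_compl.1 (atoms_subset hP h1)
  · exact mem_compl.1 (atoms_subset hQ h2)

lemma dart_all (hU : MinB G U) {d e : G.Dart} (h : Sum.inr d ∈ U) (he : e.fst = d.fst) :
    Sum.inr e ∈ U := by
  by_contra hn
  obtain ⟨P, Q, hP, hQ, hPQ, h1, h2⟩ := dart_sep hU h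
  have hR : (Sum.inr e : (V × Bool) ⊕ G.Dart) ∈ Uᶜ := mem_compl.2 hn
  have m1 := (atoms_closed hP).2 _ h1 _ hR ((gad_inl_inr G _ e).2 he)
  have m2 := (atoms_closed hQ).2 _ h2 _ hR ((gad_inl_inr G _ e).2 he)
  exact hPQ (atoms_eq hP hQ m1 m2)

/-- The vertices all of whose darts are in `U`. -/
def TT (G : SimpleGraph V) [DecidableRel G.Adj] (U : Finset ((V × Bool) ⊕ G.Dart)) : Finset V :=
  univ.filter (fun v => ∃ d : G.Dart, d.fst = v ∧ Sum.inr d ∈ U)

/-- The vertices all of whose cores are in `U`. -/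
def SS (G : SimpleGraph V) [DecidableRel G.Adj] (U : Finset ((V × Bool) ⊕ G.Dart)) : Finset V :=
  univ.filter (fun v => Sum.inl (v, false) ∈ U)

lemma mem_TT {v : V} : v ∈ TT G U ↔ ∃ d : G.Dart, d.fst = v ∧ Sum.inr d ∈ U := by
  simp [TT]

lemma mem_SS {v : V} : v ∈ SS G U ↔ Sum.inl (v, false) ∈ U := by
  simp [SS]

lemma inl_mem (hU : MinB G U) {v : V} {i : Bool} : Sum.inl (v, i) ∈ U ↔ v ∈ SS G U := by
  rw [mem_SS]
  exact ⟨fun h => core_core hU h _, fun h => core_core hU h _⟩

lemma inr_mem (hU : MinB G U) {d : G.Dart} : Sum.inr d ∈ U ↔ d.fst ∈ TT G U := by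
  rw [mem_TT]
  constructor
  · intro h
    exact ⟨d, rfl, h⟩
  · rintro ⟨e, he, h⟩
    exact dart_all hU h he.symm

lemma SS_TT (hU : MinB G U) : Disjoint (SS G U) (TT G U) := by
  rw [Finset.disjoint_left]
  intro v hS hT
  obtain ⟨d, rfl, hd⟩ := mem_TT.1 hT
  exact dart_core hU hd false (mem_SS.1 hS)

lemma card_U (hU : MinB G U) : U.card = 2 * (SS G U).card + ee G (TT G U) univ := by
  have h : U = ((SS G U) ×ˢ (univ : Finset Bool)).disjSum
      (univ.filter (fun d : G.Dart => d.fst ∈ TT G U ∧ d.snd ∈ (univ : Finset V))) := by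
    ext w
    rcases w with ⟨v, i⟩ | d
    · rw [inl_mem_disjSum, inl_mem hU]
      simp
    · rw [inr_mem_disjSum, inr_mem hU]
      simp
  conv_lhs => rw [h]
  rw [card_disjSum, dart_count, card_product]
  simp [mul_comm]

/-- The component of the gadget which belongs to a component of `G - S - T`. -/
def Om (G : SimpleGraph V) [DecidableRel G.Adj] (S C : Finset V) :
    Finset ((V × Bool) ⊕ G.Dart) :=
  (C ×ˢ (univ : Finset Bool)).disjSum
    (univ.filter (fun d : G.Dart => d.fst ∈ C ∨ (d.fst ∈ S ∧ d.snd ∈ C)))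

lemma inl_mem_Om {S C : Finset V} {v : V} {i : Bool} :
    (Sum.inl (v, i) : (V × Bool) ⊕ G.Dart) ∈ Om G S C ↔ v ∈ C := by
  unfold Om
  rw [inl_mem_disjSum]
  simp

lemma inr_mem_Om {S C : Finset V} {d : G.Dart} :
    (Sum.inr d : (V × Bool) ⊕ G.Dart) ∈ Om G S C ↔ d.fst ∈ C ∨ (d.fst ∈ S ∧ d.snd ∈ C) := by
  unfold Om
  rw [inr_mem_disjSum]
  simp

lemma ee_univ {S T C : Finset V} (hST : Disjoint S T) (hC : C ∈ atoms G (S ∪ T)ᶜ) :
    ee G C univ = ee G C C + ee G C S + ee G C T := by
  have hCR := atoms_subset hC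
  have h1 : (univ : Finset V) = ((C ∪ S) ∪ T) ∪ ((S ∪ T)ᶜ \ C) := by
    ext x
    simp only [mem_univ, mem_union, mem_sdiff, mem_compl]
    tauto
  have hCS : Disjoint C S := by
    rw [Finset.disjoint_left]
    intro x hx hxS
    exact (mem_compl.1 (hCR hx)) (mem_union_left _ hxS)
  have hCT : Disjoint C T := by
    rw [Finset.disjoint_left]
    intro x hx hxT
    exact (mem_compl.1 (hCR hx)) (mem_union_right _ hxT)
  rw [h1, ee_union_right, ee_union_right, ee_union_right G _ hCS]
  · have h0 : ee G C ((S ∪ T)ᶜ \ C) = 0 := by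
      refine ee_zero G fun a ha b hb hab => ?_
      rw [mem_sdiff] at hb
      exact hb.2 ((atoms_closed hC).2 a ha b hb.1 hab)
    rw [h0, add_zero]
  · rw [Finset.disjoint_union_left]
    exact ⟨hCT, hST⟩
  · rw [Finset.disjoint_left]
    intro x hx hx2
    simp only [mem_union, mem_sdiff, mem_compl] at hx hx2
    tauto

lemma card_Om {S T C : Finset V} (hST : Disjoint S T) (hC : C ∈ atoms G (S ∪ T)ᶜ) :
    Odd (Om G S C).card → Odd (ee G C T) := by
  have hCR := atoms_subset hC
  have hCS : Disjoint C S := by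
    rw [Finset.disjoint_left]
    intro x hx hxS
    exact (mem_compl.1 (hCR hx)) (mem_union_left _ hxS)
  have h1 : (univ.filter (fun d : G.Dart => d.fst ∈ C ∨ (d.fst ∈ S ∧ d.snd ∈ C))).card =
      ee G C univ + ee G S C := by
    rw [← dart_count, ← dart_count, ← card_union_of_disjoint]
    · congr 1
      ext d
      simp
    · rw [Finset.disjoint_left]
      intro d hd hd2
      rw [mem_filter] at hd hd2
      exact (Finset.disjoint_left.1 hCS) hd.2.1 hd2.2.1
  have h2 : (Om G S C).card = 2 * C.card + (ee G C C + ee G C S + ee G C T + ee G C S) := by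
    unfold Om
    rw [card_disjSum, h1, card_product, ee_univ hST hC, ee_comm G S C]
    simp [mul_comm]
  intro hodd
  rw [h2] at hodd
  by_contra hne
  rw [Nat.not_odd_iff_even] at hne
  have hev := ee_self_even G C
  have : Even (2 * C.card + (ee G C C + ee G C S + ee G C T + ee G C S)) := by
    obtain ⟨a, ha⟩ := hev
    obtain ⟨b, hb⟩ := hne
    exact ⟨C.card + a + ee G C S + b, by rw [ha, hb]; ring⟩
  exact (Nat.not_odd_iff_even.2 this) hodd

lemma Om_closed (hU : MinB G U) {C : Finset V} (hC : C ∈ atoms G (SS G U ∪ TT G U)ᶜ) :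
    Closed (gad G) Uᶜ (Om G (SS G U) C) := by
  have hCR := atoms_subset hC
  have hS : ∀ x ∈ C, x ∉ SS G U := fun x hx h =>
    (mem_compl.1 (hCR hx)) (mem_union_left _ h)
  have hT : ∀ x ∈ C, x ∉ TT G U := fun x hx h =>
    (mem_compl.1 (hCR hx)) (mem_union_right _ h)
  have hST := SS_TT hU
  rw [Finset.disjoint_left] at hST
  refine ⟨?_, ?_⟩
  · rintro (⟨v, i⟩ | d) h
    · rw [inl_mem_Om] at h
      rw [mem_compl, inl_mem hU]
      exact hS v h
    · rw [inr_mem_Om] at h
      rw [mem_compl, inr_mem hU]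
      rcases h with h | h
      · exact hT _ h
      · exact hST h.1
  · rintro (⟨v, i⟩ | d) ha (⟨w, j⟩ | e) hb hab
    · exact absurd hab (gad_inl_inl G _ _)
    · rw [inl_mem_Om] at ha
      rw [inr_mem_Om]
      have h1 : e.fst = v := hab
      rw [h1]
      exact Or.inl ha
    · have h1 : d.fst = w := hab
      rw [inl_mem_Om]
      rw [inr_mem_Om] at ha
      rcases ha with ha | ha
      · rwa [← h1]
      · rw [mem_compl, inl_mem hU, ← h1] at hb
        exact absurd ha.1 hb
    · have h1 : e = d.symm := hab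
      have h2 : e.fst = d.snd := by rw [h1]; rfl
      have h3 : e.snd = d.fst := by rw [h1]; rfl
      rw [inr_mem_Om] at ha ⊢
      rw [mem_compl, inr_mem hU, h2] at hb
      rcases ha with ha | ha
      · by_cases hs : d.snd ∈ SS G U
        · right
          rw [h2, h3]
          exact ⟨hs, ha⟩
        · left
          rw [h2]
          refine (atoms_closed hC).2 d.fst ha d.snd ?_ d.adj
          rw [mem_compl, mem_union]
          tauto
      · left
        rw [h2]
        exact ha.2

/-- The odd components of the gadget. -/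
lemma odds_subset (hU : MinB G U) (hdeg : ∀ v, ∃ w, G.Adj v w) :
    odds (gad G) Uᶜ ⊆
      ((TT G U ×ˢ (univ : Finset Bool)).image
        (fun p => ({Sum.inl p} : Finset ((V × Bool) ⊕ G.Dart)))) ∪
      ((univ.filter (fun d : G.Dart => d.fst ∈ SS G U ∧ d.snd ∈ TT G U)).image
        (fun d => ({Sum.inr d} : Finset ((V × Bool) ⊕ G.Dart)))) ∪
      (oc G (SS G U) (TT G U)).image (Om G (SS G U)) := by
  intro O hO
  rw [mem_odds] at hO
  obtain ⟨hO, hodd⟩ := hO
  have hcl := atoms_closed hO
  have hST := SS_TT hU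
  rw [mem_union, mem_union]
  by_cases hex : ∃ p : V × Bool, Sum.inl p ∈ O
  · obtain ⟨⟨v, i⟩, hv⟩ := hex
    have hvS : v ∉ SS G U := by
      intro h
      exact (mem_compl.1 (hcl.1 hv)) ((inl_mem hU).2 h)
    by_cases hvT : v ∈ TT G U
    · left; left
      rw [mem_image]
      refine ⟨(v, i), by simp [hvT], ?_⟩
      refine Subset.antisymm (singleton_subset_iff.2 hv) ?_
      refine atoms_min hO ⟨singleton_subset_iff.2 (hcl.1 hv), ?_⟩ ⟨_, hv, mem_singleton_self _⟩
      rintro a ha b hb hab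
      rw [mem_singleton] at ha
      subst ha
      obtain ⟨d, rfl, hd⟩ := adj_inl hab.symm
      have hd' : d.fst = v := hd
      rw [mem_compl, inr_mem hU, hd'] at hb
      exact absurd hvT hb
    · right
      have hvR : v ∈ (SS G U ∪ TT G U)ᶜ := by
        rw [mem_compl, mem_union]
        tauto
      set C := comp G (SS G U ∪ TT G U)ᶜ v with hCdef
      have hC : C ∈ atoms G (SS G U ∪ TT G U)ᶜ := comp_mem_atoms hvR
      have hvC : v ∈ C := self_mem_comp hvR
      have hsub : O ⊆ Om G (SS G U) C :=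
        atoms_min hO (Om_closed hU hC) ⟨_, hv, inl_mem_Om.2 hvC⟩
      -- the set of the vertices whose core is in `O`
      have hdart : ∀ (x : V) (j : Bool), Sum.inl (x, j) ∈ O → x ∉ TT G U →
          ∀ d : G.Dart, d.fst = x → Sum.inr d ∈ O := by
        intro x j hx hxT d hd
        refine hcl.2 _ hx _ ?_ ((gad_inl_inr G (x, j) d).2 hd)
        rw [mem_compl, inr_mem hU, hd]
        exact hxT
      have hcore : ∀ d : G.Dart, Sum.inr d ∈ O → d.fst ∉ SS G U → ∀ j : Bool,
          Sum.inl (d.fst, j) ∈ O := by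
        intro d hd hdS j
        refine hcl.2 _ hd _ ?_ ((gad_inr_inl G (d.fst, j) d).2 rfl)
        rw [mem_compl, inl_mem hU]
        exact hdS
      have hsymm : ∀ d : G.Dart, Sum.inr d ∈ O → d.snd ∉ TT G U → Sum.inr d.symm ∈ O := by
        intro d hd hdT
        refine hcl.2 _ hd _ ?_ ((gad_inr_inr G d d.symm).2 rfl)
        rw [mem_compl, inr_mem hU]
        exact hdT
      have hall : ∀ (x : V) (j : Bool), Sum.inl (x, j) ∈ O → x ∉ SS G U → x ∉ TT G U →
          ∀ j', Sum.inl (x, j') ∈ O := by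
        intro x j hx hxS hxT j'
        obtain ⟨w, hw⟩ := hdeg x
        have h1 := hdart x j hx hxT ⟨(x, w), hw⟩ rfl
        exact hcore _ h1 hxS j'
      have hcl' : Closed G (SS G U ∪ TT G U)ᶜ
          ((SS G U ∪ TT G U)ᶜ.filter (fun x => Sum.inl (x, false) ∈ O)) := by
        refine ⟨filter_subset _ _, fun a ha b hb hab => ?_⟩
        rw [mem_filter, mem_compl, mem_union, not_or] at ha
        rw [mem_filter]
        refine ⟨hb, ?_⟩
        rw [mem_compl, mem_union, not_or] at hb
        have h1 := hdart a false ha.2 ha.1.2 ⟨(a, b), hab⟩ rfl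
        have h2 := hsymm _ h1 hb.2
        exact hcore _ h2 hb.1 false
      have hCO : ∀ x ∈ C, ∀ j, Sum.inl (x, j) ∈ O := by
        intro x hx
        have h1 : C ⊆ (SS G U ∪ TT G U)ᶜ.filter (fun x => Sum.inl (x, false) ∈ O) :=
          comp_min hcl' (mem_filter.2 ⟨hvR, hall v i hv hvS hvT false⟩)
        have h2 := h1 hx
        rw [mem_filter, mem_compl, mem_union, not_or] at h2
        exact hall x false h2.2 h2.1.1 h2.1.2
      have hCT : ∀ x ∈ C, x ∉ TT G U := fun x hx h =>
        (mem_compl.1 (atoms_subset hC hx)) (mem_union_right _ h)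
      have hsub2 : Om G (SS G U) C ⊆ O := by
        rintro (⟨x, j⟩ | d) hx
        · exact hCO x (inl_mem_Om.1 hx) j
        · rw [inr_mem_Om] at hx
          rcases hx with hx | hx
          · exact hdart d.fst false (hCO _ hx false) (hCT _ hx) d rfl
          · have h1 : Sum.inr d.symm ∈ O :=
              hdart d.snd false (hCO _ hx.2 false) (hCT _ hx.2) d.symm rfl
            have h2 := hsymm _ h1 (by
              change d.fst ∉ TT G U
              exact (Finset.disjoint_left.1 hST) hx.1)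
            rwa [SimpleGraph.Dart.symm_symm] at h2
      have heq : Om G (SS G U) C = O := Subset.antisymm hsub2 hsub
      rw [mem_image]
      refine ⟨C, mem_oc.2 ⟨hC, card_Om hST hC ?_⟩, heq⟩
      rw [heq]
      exact hodd
  · push Not at hex
    have hdar : ∃ d : G.Dart, Sum.inr d ∈ O := by
      obtain ⟨w, hw⟩ := atoms_nonempty hO
      rcases w with p | d
      · exact absurd hw (hex p)
      · exact ⟨d, hw⟩
    obtain ⟨d, hd⟩ := hdar
    have hnoS : ∀ e : G.Dart, Sum.inr e ∈ O → e.fst ∈ SS G U := by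
      intro e he
      by_contra hS
      refine hex (e.fst, false) (hcl.2 _ he _ ?_ ((gad_inr_inl G (e.fst, false) e).2 rfl))
      rw [mem_compl, inl_mem hU]
      exact hS
    have hdS := hnoS d hd
    by_cases hdT : d.snd ∈ TT G U
    · left; right
      rw [mem_image]
      refine ⟨d, by simp [hdS, hdT], ?_⟩
      refine Subset.antisymm (singleton_subset_iff.2 hd) ?_
      refine atoms_min hO ⟨singleton_subset_iff.2 (hcl.1 hd), ?_⟩ ⟨_, hd, mem_singleton_self _⟩
      rintro a ha b hb hab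
      rw [mem_singleton] at ha
      subst ha
      rcases adj_inr hab.symm with rfl | rfl | rfl
      · rw [mem_compl, inl_mem hU] at hb
        exact absurd hdS hb
      · rw [mem_compl, inl_mem hU] at hb
        exact absurd hdS hb
      · rw [mem_compl, inr_mem hU] at hb
        exact absurd hdT hb
    · exfalso
      have hsy : Sum.inr d.symm ∈ O := by
        refine hcl.2 _ hd _ ?_ ((gad_inr_inr G d d.symm).2 rfl)
        rw [mem_compl, inr_mem hU]
        exact hdT
      have hds := hnoS _ hsy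
      have hsub : O ⊆ {Sum.inr d, Sum.inr d.symm} := by
        refine atoms_min hO ⟨?_, ?_⟩ ⟨_, hd, by simp⟩
        · intro x hx
          rw [mem_insert, mem_singleton] at hx
          rcases hx with rfl | rfl
          · exact hcl.1 hd
          · exact hcl.1 hsy
        · rintro a ha b hb hab
          rw [mem_insert, mem_singleton] at ha ⊢
          rcases ha with rfl | rfl
          · rcases adj_inr hab.symm with rfl | rfl | rfl
            · rw [mem_compl, inl_mem hU] at hb
              exact absurd hdS hb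
            · rw [mem_compl, inl_mem hU] at hb
              exact absurd hdS hb
            · exact Or.inr rfl
          · rcases adj_inr hab.symm with rfl | rfl | rfl
            · rw [mem_compl, inl_mem hU] at hb
              exact absurd hds hb
            · rw [mem_compl, inl_mem hU] at hb
              exact absurd hds hb
            · left
              rw [SimpleGraph.Dart.symm_symm]
      have heq : O = {Sum.inr d, Sum.inr d.symm} := by
        refine Subset.antisymm hsub ?_
        intro x hx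
        rw [mem_insert, mem_singleton] at hx
        rcases hx with rfl | rfl
        · exact hd
        · exact hsy
      have h2 : O.card = 2 := by
        rw [heq]
        refine card_pair fun h => ?_
        exact (SimpleGraph.Dart.symm_ne d) (Sum.inr.inj h).symm
      rw [h2] at hodd
      exact absurd hodd (by decide)

end barrier

/-- (Belck, Tutte) If `G` has no isolated vertex and no 2-factor then it has a barrier. -/
theorem belck_lt (G : SimpleGraph V) (hdeg : ∀ v, ∃ w, G.Adj v w)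
    (h : ¬ ∃ F : SimpleGraph V, F ≤ G ∧ ∀ v, {w | F.Adj v w}.ncard = 2) :
    ∃ S T : Finset V, Disjoint S T ∧
      2 * S.card + ee G T Sᶜ < 2 * T.card + (oc G S T).card := by
  classical
  have hno : ¬ ∃ M : (gad G).Subgraph, M.IsPerfectMatching := by
    rintro ⟨M, hM⟩
    exact h (factor_of_matching G M hM)
  have hev : Even (Fintype.card ((V × Bool) ⊕ G.Dart)) := by
    rw [Fintype.card_sum, Fintype.card_prod, Fintype.card_bool,
      SimpleGraph.dart_card_eq_twice_card_edges]
    exact ((even_two.mul_left _).add (even_two.mul_right _))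
  obtain ⟨U, hlt, hU⟩ := barrier (gad G) hev hno
  have hU' : MinB G U := hU
  refine ⟨SS G U, TT G U, SS_TT hU', ?_⟩
  have h1 := card_le_card (odds_subset hU' hdeg)
  have h2 : (((TT G U ×ˢ (univ : Finset Bool)).image
        (fun p => ({Sum.inl p} : Finset ((V × Bool) ⊕ G.Dart)))) ∪
      ((univ.filter (fun d : G.Dart => d.fst ∈ SS G U ∧ d.snd ∈ TT G U)).image
        (fun d => ({Sum.inr d} : Finset ((V × Bool) ⊕ G.Dart)))) ∪
      (oc G (SS G U) (TT G U)).image (Om G (SS G U))).card ≤
      2 * (TT G U).card + ee G (SS G U) (TT G U) + (oc G (SS G U) (TT G U)).card := by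
    refine (card_union_le _ _).trans (add_le_add ((card_union_le _ _).trans
      (add_le_add ?_ ?_)) card_image_le)
    · refine card_image_le.trans ?_
      rw [card_product]
      simp [mul_comm]
    · refine card_image_le.trans (le_of_eq ?_)
      rw [dart_count]
  have h3 := card_U hU'
  have h4 : ee G (TT G U) univ = ee G (TT G U) (SS G U) + ee G (TT G U) (SS G U)ᶜ := by
    rw [← ee_union_right]
    · congr 1
      ext x
      simp
    · exact disjoint_compl_right
  rw [ee_comm G (TT G U) (SS G U)] at h4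
  omega

end Pool.Agent.TWF
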