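import Pool.Agent.TWF.Struct

set_option autoImplicit false
set_option linter.unusedSectionVars false

/-!
# Counting the deleted edges
-/

open Finset

namespace Pool.Agent.TWF

variable {V : Type*} [Fintype V] [DecidableEq V]

/-- The graph induced on `C` is connected. -/
def Conn (H : SimpleGraph V) (C : Finset V) : Prop :=
  C.Nonempty ∧ ∀ D, Closed H C D → D.Nonempty → D = C

/-- There is an edge between `A` and `B`. -/
def AdjS (H : SimpleGraph V) (A B : Finset V) : Prop := ∃ a ∈ A, ∃ b ∈ B, H.Adj a b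

/-- Every simple bipartite minor with `v ≥ 3` vertices has at most `2 v - 4` edges. -/
def BipSparse (H : SimpleGraph V) : Prop :=
  ∀ (𝒜 ℬ : Finset (Finset V)) (P : Finset (Finset V × Finset V)), (∀ A ∈ 𝒜, Conn H A) →
    (∀ B ∈ ℬ, Conn H B) →
    (∀ A ∈ 𝒜 ∪ ℬ, ∀ B ∈ 𝒜 ∪ ℬ, A ≠ B → Disjoint A B) → Disjoint 𝒜 ℬ →
    3 ≤ 𝒜.card + ℬ.card → (∀ p ∈ P, p.1 ∈ 𝒜 ∧ p.2 ∈ ℬ ∧ AdjS H p.1 p.2) →
    P.card + 4 ≤ 2 * (𝒜.card + ℬ.card)

/-- The outer neighbours of `Y`. -/
noncomputable def nbh (H : SimpleGraph V) (Y : Finset V) : Finset V := by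
  classical exact univ.filter (fun w => w ∉ Y ∧ ∃ y ∈ Y, H.Adj y w)

lemma mem_nbh {H : SimpleGraph V} {Y : Finset V} {w : V} :
    w ∈ nbh H Y ↔ w ∉ Y ∧ ∃ y ∈ Y, H.Adj y w := by
  classical
  unfold nbh
  simp

/-- The connectivity hypothesis of the problem. -/
def FourConn (G : SimpleGraph V) : Prop :=
  ∀ S : Finset V, S.card ≤ 3 → ∀ u v : V, u ∉ S → v ∉ S →
    ∃ p : G.Walk u v, ∀ w ∈ p.support, w ∉ S

lemma walk_stay {G : SimpleGraph V} {Y : Finset V} {u v : V} (p : G.Walk u v) (hu : u ∈ Y)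
    (h : ∀ w ∈ p.support, w ∉ nbh G Y) : v ∈ Y := by
  induction p with
  | nil => exact hu
  | @cons a b c hab q ih =>
    refine ih ?_ (fun w hw => h w (by simp [hw]))
    by_contra hb
    refine h b (by simp) (mem_nbh.2 ⟨hb, a, hu, hab⟩)

lemma four_le {G : SimpleGraph V} (h4 : FourConn G) {Y : Finset V} {y z : V} (hy : y ∈ Y)
    (hz : z ∉ Y) (hz2 : z ∉ nbh G Y) : 4 ≤ (nbh G Y).card := by
  by_contra hcon
  push Not at hcon
  obtain ⟨p, hp⟩ := h4 (nbh G Y) (by omega) y z (fun h => (mem_nbh.1 h).1 hy) hz2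
  exact hz (walk_stay p hy hp)

lemma deg_four {G : SimpleGraph V} (h5 : 5 ≤ Fintype.card V) (h4 : FourConn G) (x : V) :
    4 ≤ (nbh G {x}).card := by
  by_cases h : ∃ z, z ∉ ({x} : Finset V) ∧ z ∉ nbh G {x}
  · obtain ⟨z, h1, h2⟩ := h
    exact four_le h4 (mem_singleton_self x) h1 h2
  · push Not at h
    have h1 : (univ : Finset V) ⊆ insert x (nbh G {x}) := by
      intro z _
      by_cases hz : z = x
      · subst hz; exact mem_insert_self _ _
      · exact mem_insert_of_mem (h z (by simpa using hz))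
    have h2 := (card_le_card h1).trans (card_insert_le _ _)
    rw [card_univ] at h2
    omega

section main

variable {G : SimpleGraph V} {S T : Finset V}

/-- The property of the minimal barrier. -/
def Str (G : SimpleGraph V) (S T : Finset V) : Prop :=
  ∀ x ∈ T, ∀ w, w ∉ S → G.Adj x w → ∃ C ∈ oc G S T, nb G C x = {w}

lemma oc_not_mem {C : Finset V} (hC : C ∈ oc G S T) {v : V} (hv : v ∈ C) : v ∉ S ∧ v ∉ T := by
  have h := atoms_subset (mem_oc.1 hC).1 hv
  rw [mem_compl, mem_union, not_or] at h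
  exact h

lemma oc_eq {C D : Finset V} (hC : C ∈ oc G S T) (hD : D ∈ oc G S T) {v : V} (h1 : v ∈ C)
    (h2 : v ∈ D) : C = D := atoms_eq (mem_oc.1 hC).1 (mem_oc.1 hD).1 h1 h2

lemma nb_card_le (hst : Str G S T) {x : V} (hx : x ∈ T) {C : Finset V} (hC : C ∈ oc G S T) :
    (nb G C x).card ≤ 1 := by
  rcases (nb G C x).eq_empty_or_nonempty with h | ⟨w, hw⟩
  · rw [h]; simp
  · have hw' := mem_nb.1 hw
    obtain ⟨D, hD, hDw⟩ := hst x hx w (oc_not_mem hC hw'.1).1 hw'.2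
    have h1 : w ∈ D := (mem_nb.1 (by rw [hDw]; exact mem_singleton_self w)).1
    rw [oc_eq hC hD hw'.1 h1, hDw]
    simp

/-- If only one edge goes from `C` to `T` then only one vertex of `T` is adjacent to `C`. -/
lemma one_unique {C : Finset V} (h1 : ee G C T = 1) {x z a b : V} (hx : x ∈ T) (hz : z ∈ T)
    (ha : a ∈ C) (hb : b ∈ C) (hax : G.Adj a x) (hbz : G.Adj b z) : x = z := by
  by_contra hne
  rw [ee_comm] at h1
  have h2 : ee G {x, z} C ≤ ee G T C := by
    unfold ee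
    refine Finset.sum_le_sum_of_subset ?_
    intro y hy
    rw [mem_insert, mem_singleton] at hy
    rcases hy with rfl | rfl
    · exact hx
    · exact hz
  have h3 : ee G {x, z} C = (nb G C x).card + (nb G C z).card := by
    unfold ee
    rw [Finset.sum_pair hne]
  have h4 : 0 < (nb G C x).card := card_pos.2 ⟨a, mem_nb.2 ⟨ha, hax.symm⟩⟩
  have h5 : 0 < (nb G C z).card := card_pos.2 ⟨b, mem_nb.2 ⟨hb, hbz.symm⟩⟩
  omega

/-- The components attached to `x` only. -/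
noncomputable def O1 (G : SimpleGraph V) (S T : Finset V) (x : V) : Finset (Finset V) :=
  (oc G S T).filter (fun C => ee G C T = 1 ∧ (nb G C x).Nonempty)

/-- The components with at least three neighbours in `T`. -/
noncomputable def O3 (G : SimpleGraph V) (S T : Finset V) : Finset (Finset V) :=
  (oc G S T).filter (fun C => ee G C T ≠ 1)

/-- The vertex `x` together with the components attached to `x` only. -/
noncomputable def XX (G : SimpleGraph V) (S T : Finset V) (x : V) : Finset V :=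
  insert x ((O1 G S T x).biUnion id)

/-- The component of `x` in `XX` after deleting edges. -/
noncomputable def YY (G H : SimpleGraph V) (S T : Finset V) (x : V) : Finset V :=
  comp H (XX G S T x) x

lemma mem_XX {x v : V} : v ∈ XX G S T x ↔ v = x ∨ ∃ C ∈ oc G S T, ee G C T = 1 ∧
    (nb G C x).Nonempty ∧ v ∈ C := by
  unfold XX O1
  rw [mem_insert, mem_biUnion]
  simp only [mem_filter, id]
  constructor
  · rintro (h | ⟨C, hC, hv⟩)
    · exact Or.inl h
    · exact Or.inr ⟨C, hC.1, hC.2.1, hC.2.2, hv⟩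
  · rintro (h | ⟨C, hC, h1, h2, hv⟩)
    · exact Or.inl h
    · exact Or.inr ⟨C, ⟨hC, h1, h2⟩, hv⟩

lemma self_XX {x : V} : x ∈ XX G S T x := mem_XX.2 (Or.inl rfl)

lemma self_YY {H : SimpleGraph V} {x : V} : x ∈ YY G H S T x := self_mem_comp self_XX

lemma YY_sub {H : SimpleGraph V} {x : V} : YY G H S T x ⊆ XX G S T x := comp_subset

/-- `XX` meets `T` in `x` only and does not meet `S`. -/
lemma XX_T (hd : Disjoint S T) {x v : V} (hx : x ∈ T) (hv : v ∈ XX G S T x) :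
    v ∉ S ∧ (v ∈ T → v = x) := by
  rcases mem_XX.1 hv with rfl | ⟨C, hC, -, -, hvC⟩
  · exact ⟨fun h => (Finset.disjoint_left.1 hd) h hx, fun _ => rfl⟩
  · exact ⟨(oc_not_mem hC hvC).1, fun h => absurd h (oc_not_mem hC hvC).2⟩

/-- There is no edge between different `XX`. -/
lemma XX_no_edge (hst : Str G S T) (hd : Disjoint S T) {x z u v : V} (hx : x ∈ T) (hz : z ∈ T)
    (hxz : x ≠ z) (hu : u ∈ XX G S T x) (hv : v ∈ XX G S T z) : u ≠ v ∧ ¬ G.Adj u v := by
  rcases mem_XX.1 hu with rfl | ⟨C, hC, hC1, ⟨a, ha⟩, huC⟩ <;>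
    rcases mem_XX.1 hv with rfl | ⟨D, hD, hD1, ⟨b, hb⟩, hvD⟩
  · refine ⟨hxz, fun h => ?_⟩
    obtain ⟨C, hC, hCw⟩ := hst u hx v (fun h' => (Finset.disjoint_left.1 hd) h' hz) h
    have h1 : v ∈ C := (mem_nb.1 (by rw [hCw]; exact mem_singleton_self v)).1
    exact (oc_not_mem hC h1).2 hz
  · refine ⟨fun h => (oc_not_mem hD hvD).2 (h ▸ hx), fun h => ?_⟩
    exact hxz (one_unique hD1 hx hz hvD (mem_nb.1 hb).1 h.symm (mem_nb.1 hb).2.symm)
  · refine ⟨fun h => (oc_not_mem hC huC).2 (h ▸ hz), fun h => ?_⟩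
    exact hxz (one_unique hC1 hx hz (mem_nb.1 ha).1 huC (mem_nb.1 ha).2.symm h)
  · have hne : ∀ y, y ∈ C → y ∈ D → False := by
      intro y h1 h2
      have h3 := oc_eq hC hD h1 h2
      subst h3
      exact hxz (one_unique hC1 hx hz (mem_nb.1 ha).1 (mem_nb.1 hb).1 (mem_nb.1 ha).2.symm
        (mem_nb.1 hb).2.symm)
    refine ⟨fun h => hne u huC (h ▸ hvD), fun h => ?_⟩
    refine hne v ((atoms_closed (mem_oc.1 hC).1).2 u huC v ?_ h) hvD
    exact atoms_subset (mem_oc.1 hD).1 hvD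

lemma YY_conn {H : SimpleGraph V} {x : V} : Conn H (YY G H S T x) := by
  refine ⟨⟨x, self_YY⟩, fun D hD hne => ?_⟩
  refine Subset.antisymm hD.1 ?_
  have hat : YY G H S T x ∈ atoms H (XX G S T x) := comp_mem_atoms self_XX
  obtain ⟨d, hd⟩ := hne
  refine atoms_min hat ⟨hD.1.trans YY_sub, fun a ha b hb hab => ?_⟩ ⟨d, hD.1 hd, hd⟩
  exact hD.2 a ha b (closed_comp.2 a (hD.1 ha) b hb hab) hab

/-- The neighbours of `YY` in the smaller graph. -/
lemma nbh_YY (hst : Str G S T) (hd : Disjoint S T) {H : SimpleGraph V} (hH : H ≤ G) {x w : V}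
    (hx : x ∈ T) (hw : w ∈ nbh H (YY G H S T x)) :
    w ∈ S ∨ ∃ C ∈ O3 G S T, nb G C x = {w} := by
  obtain ⟨hwY, y, hy, hyw⟩ := mem_nbh.1 hw
  by_cases hwS : w ∈ S
  · exact Or.inl hwS
  right
  have hwX : w ∉ XX G S T x := by
    intro h
    exact hwY (closed_comp.2 y hy w h hyw)
  rcases mem_XX.1 (YY_sub hy) with rfl | ⟨C, hC, hC1, ⟨a, ha⟩, hyC⟩
  · obtain ⟨C, hC, hCw⟩ := hst y hx w hwS (hH hyw)
    refine ⟨C, ?_, hCw⟩
    unfold O3
    rw [mem_filter]
    refine ⟨hC, fun h1 => hwX ?_⟩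
    have h2 : w ∈ nb G C y := by rw [hCw]; exact mem_singleton_self w
    exact mem_XX.2 (Or.inr ⟨C, hC, h1, ⟨w, h2⟩, (mem_nb.1 h2).1⟩)
  · exfalso
    by_cases hwT : w ∈ T
    · have h3 := one_unique hC1 hx hwT (mem_nb.1 ha).1 hyC (mem_nb.1 ha).2.symm (hH hyw)
      rw [← h3] at hwX
      exact hwX self_XX
    · refine hwX (mem_XX.2 (Or.inr ⟨C, hC, hC1, ⟨a, ha⟩, ?_⟩))
      refine (atoms_closed (mem_oc.1 hC).1).2 y hyC w ?_ (hH hyw)
      rw [mem_compl, mem_union, not_or]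
      exact ⟨hwS, hwT⟩

end main

end Pool.Agent.TWF
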