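import Mathlib

set_option autoImplicit false
set_option linter.unusedSectionVars false

/-!
# Subspaces with a spanning family that uses every coordinate at most twice
-/

open Finset

namespace Pool.Agent.TWF

variable {E : Type*} [Fintype E] [DecidableEq E]

/-- The subspace is spanned by a finite family in which every coordinate is used at most twice. -/
def TwoSpan (W : Submodule (ZMod 2) (E → ZMod 2)) : Prop :=
  ∃ (n : ℕ) (b : Fin n → E → ZMod 2), Submodule.span (ZMod 2) (Set.range b) = W ∧
    ∀ e, (univ.filter (fun i => b i e ≠ 0)).card ≤ 2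

lemma zmod_one {a : ZMod 2} (h : a ≠ 0) : a = 1 := by
  revert h
  revert a
  decide

lemma restrict_one {W : Submodule (ZMod 2) (E → ZMod 2)} (h : TwoSpan W) (e : E) :
    ∃ W' : Submodule (ZMod 2) (E → ZMod 2), TwoSpan W' ∧ ∀ z, z ∈ W' ↔ z ∈ W ∧ z e = 0 := by
  classical
  obtain ⟨n, b, hb, h2⟩ := h
  have hbW : ∀ i, b i ∈ W := fun i => by
    rw [← hb]
    exact Submodule.subset_span ⟨i, rfl⟩
  by_cases hJ : ∃ i, b i e ≠ 0
  · obtain ⟨i, hi⟩ := hJ
    have hi1 := zmod_one hi
    let φ : (E → ZMod 2) →ₗ[ZMod 2] (E → ZMod 2) :=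
      LinearMap.id + (LinearMap.proj (R := ZMod 2) (φ := fun _ : E => ZMod 2) e).smulRight (b i)
    have hφ : ∀ z, φ z = z + z e • b i := fun z => rfl
    refine ⟨W.map φ, ⟨n, fun k => φ (b k), ?_, ?_⟩, ?_⟩
    · rw [← hb, Submodule.map_span, ← Set.range_comp]
      rfl
    · intro f
      change (univ.filter (fun k => φ (b k) f ≠ 0)).card ≤ 2
      by_cases hf : b i f = 0
      · refine le_trans (card_le_card ?_) (h2 f)
        intro k hk
        rw [mem_filter] at hk ⊢
        refine ⟨mem_univ _, fun h3 => hk.2 ?_⟩
        rw [hφ, Pi.add_apply, Pi.smul_apply, hf, h3]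
        simp
      · have hif : i ∈ univ.filter (fun k => b k f ≠ 0) := by simp [hf]
        have hie : i ∈ univ.filter (fun k => b k e ≠ 0) := by simp [hi]
        have h3 := card_erase_of_mem hif
        have h4 := card_erase_of_mem hie
        have h5 := h2 f
        have h6 := h2 e
        have h7 : (univ.filter (fun k => φ (b k) f ≠ 0)) ⊆
            ((univ.filter (fun k => b k f ≠ 0)).erase i) ∪
              ((univ.filter (fun k => b k e ≠ 0)).erase i) := by
          intro k hk
          rw [mem_filter, hφ, Pi.add_apply, Pi.smul_apply, zmod_one hf] at hk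
          have hki : k ≠ i := by
            rintro rfl
            apply hk.2
            rw [zmod_one hf, hi1]
            decide
          rw [mem_union, mem_erase, mem_erase, mem_filter, mem_filter]
          by_cases h8 : b k f = 0
          · right
            refine ⟨hki, mem_univ _, fun h9 => hk.2 ?_⟩
            rw [h8, h9]
            decide
          · left
            exact ⟨hki, mem_univ _, h8⟩
        have h8 := (card_le_card h7).trans (card_union_le _ _)
        omega
    · intro z
      rw [Submodule.mem_map]
      constructor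
      · rintro ⟨y, hy, rfl⟩
        rw [hφ]
        refine ⟨W.add_mem hy (W.smul_mem _ (hbW i)), ?_⟩
        rw [Pi.add_apply, Pi.smul_apply, hi1, smul_eq_mul, mul_one]
        exact CharTwo.add_self_eq_zero _
      · rintro ⟨hz, hze⟩
        refine ⟨z, hz, ?_⟩
        rw [hφ, hze, zero_smul, add_zero]
  · push Not at hJ
    refine ⟨W, ⟨n, b, hb, h2⟩, fun z => ⟨fun hz => ⟨hz, ?_⟩, fun hz => hz.1⟩⟩
    have h3 : W ≤ LinearMap.ker
        (LinearMap.proj (R := ZMod 2) (φ := fun _ : E => ZMod 2) e) := by
      rw [← hb, Submodule.span_le]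
      rintro _ ⟨k, rfl⟩
      exact hJ k
    exact h3 hz

lemma restrict_set {W : Submodule (ZMod 2) (E → ZMod 2)} (h : TwoSpan W) (D : Finset E) :
    ∃ W' : Submodule (ZMod 2) (E → ZMod 2), TwoSpan W' ∧
      ∀ z, z ∈ W' ↔ z ∈ W ∧ ∀ e ∈ D, z e = 0 := by
  classical
  induction D using Finset.induction_on with
  | empty => exact ⟨W, h, fun z => by simp⟩
  | insert a D ha ih =>
    obtain ⟨W1, h1, h2⟩ := ih
    obtain ⟨W2, h3, h4⟩ := restrict_one h1 a
    refine ⟨W2, h3, fun z => ?_⟩
    rw [h4, h2]
    simp only [Finset.forall_mem_insert]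
    tauto

lemma project {P' : Type*} [Fintype P'] [DecidableEq P']
    {W : Submodule (ZMod 2) (E → ZMod 2)} (h : TwoSpan W) (g : P' → E) :
    TwoSpan (W.map (LinearMap.funLeft (ZMod 2) (ZMod 2) g)) := by
  classical
  obtain ⟨n, b, hb, h2⟩ := h
  refine ⟨n, fun k => LinearMap.funLeft (ZMod 2) (ZMod 2) g (b k), ?_, fun p => h2 (g p)⟩
  rw [← hb, Submodule.map_span, ← Set.range_comp]
  rfl

/-- The count. -/
lemma two_count {Z : Submodule (ZMod 2) (E → ZMod 2)} (h : TwoSpan Z)
    (h4 : ∀ z ∈ Z, z ≠ 0 → 4 ≤ (univ.filter (fun e => z e ≠ 0)).card) (hne : Z ≠ ⊥) :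
    4 * (Module.finrank (ZMod 2) Z + 1) ≤ 2 * Fintype.card E := by
  classical
  obtain ⟨n, b, hb, h2⟩ := h
  have hbZ : ∀ i, b i ∈ Z := fun i => by
    rw [← hb]
    exact Submodule.subset_span ⟨i, rfl⟩
  let c : Option (Fin n) → E → ZMod 2 := fun o => Option.elim o (∑ i, b i) b
  have hcZ : ∀ o, c o ∈ Z := by
    intro o
    cases o with
    | none => exact Z.sum_mem fun i _ => hbZ i
    | some i => exact hbZ i
  have hsum : ∑ o, c o = 0 := by
    rw [Fintype.sum_option]
    funext e
    exact CharTwo.add_self_eq_zero _
  have hc2 : ∀ e, (univ.filter (fun o => c o e ≠ 0)).card ≤ 2 := by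
    intro e
    have h3 : (univ.filter (fun o => c o e ≠ 0)).card =
        (if c none e ≠ 0 then 1 else 0) + (univ.filter (fun i => b i e ≠ 0)).card := by
      rw [Finset.card_filter, Finset.card_filter, Fintype.sum_option]
      rfl
    rw [h3]
    have h5 := h2 e
    by_cases h6 : c none e = 0
    · rw [if_neg (not_not.2 h6)]
      omega
    · rw [if_pos h6]
      have h7 : c none e = ((univ.filter (fun i => b i e ≠ 0)).card : ZMod 2) := by
        change (∑ i, b i) e = _
        rw [Finset.sum_apply, Finset.card_filter, Nat.cast_sum]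
        refine Finset.sum_congr rfl fun i _ => ?_
        by_cases h8 : b i e = 0
        · rw [if_neg (not_not.2 h8), h8]
          simp
        · rw [if_pos h8, zmod_one h8]
          simp
      have h8 : (univ.filter (fun i => b i e ≠ 0)).card ≠ 2 := by
        intro h9
        rw [h9] at h7
        exact h6 (h7.trans (by decide))
      omega
  set N := univ.filter (fun o => c o ≠ 0) with hN
  have hNne : N.Nonempty := by
    rw [Finset.nonempty_iff_ne_empty]
    intro h3
    apply hne
    rw [← hb, Submodule.span_eq_bot]
    rintro _ ⟨i, rfl⟩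
    by_contra h5
    have h6 : some i ∈ N := by
      rw [hN, mem_filter]
      exact ⟨mem_univ _, h5⟩
    rw [h3] at h6
    simp at h6
  obtain ⟨k0, hk0⟩ := hNne
  have hfin : Module.finrank (ZMod 2) Z ≤ N.card - 1 := by
    have h3 : Z = Submodule.span (ZMod 2) ((((N.erase k0).image c : Finset (E → ZMod 2))) :
        Set (E → ZMod 2)) := by
      apply le_antisymm
      · have h5 : ∀ o, o ≠ k0 → c o ∈ Submodule.span (ZMod 2)
            ((((N.erase k0).image c : Finset (E → ZMod 2))) : Set (E → ZMod 2)) := by
          intro o ho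
          by_cases h6 : c o = 0
          · rw [h6]
            exact Submodule.zero_mem _
          · refine Submodule.subset_span ?_
            rw [mem_coe]
            refine mem_image_of_mem _ (mem_erase.2 ⟨ho, ?_⟩)
            rw [hN, mem_filter]
            exact ⟨mem_univ _, h6⟩
        have h6 : ∀ o, c o ∈ Submodule.span (ZMod 2)
            ((((N.erase k0).image c : Finset (E → ZMod 2))) : Set (E → ZMod 2)) := by
          intro o
          by_cases ho : o = k0
          · subst ho
            have h7 : c o = ∑ k ∈ univ.erase o, c k := by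
              have h8 := Finset.add_sum_erase univ c (mem_univ o)
              rw [hsum] at h8
              funext e
              have h9 := congrFun h8 e
              rw [Pi.add_apply, Pi.zero_apply] at h9
              exact CharTwo.add_eq_zero.1 h9
            rw [h7]
            refine Submodule.sum_mem _ fun k hk => h5 k (mem_erase.1 hk).1
          · exact h5 o ho
        rw [← hb, Submodule.span_le]
        rintro _ ⟨i, rfl⟩
        exact h6 (some i)
      · rw [Submodule.span_le]
        intro x hx
        rw [mem_coe, mem_image] at hx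
        obtain ⟨o, -, rfl⟩ := hx
        exact hcZ o
    have h5 := finrank_span_finset_le_card (R := ZMod 2) ((N.erase k0).image c)
    have h6 : Module.finrank (ZMod 2) Z = Set.finrank (ZMod 2)
        ((((N.erase k0).image c : Finset (E → ZMod 2))) : Set (E → ZMod 2)) := by
      unfold Set.finrank
      rw [← h3]
    rw [h6]
    refine h5.trans (card_image_le.trans ?_)
    rw [card_erase_of_mem hk0]
  have hNpos : 1 ≤ N.card := card_pos.2 ⟨k0, hk0⟩
  have hdouble : 4 * N.card ≤ 2 * Fintype.card E := by
    have h3 : 4 * N.card ≤ ∑ o ∈ N, (univ.filter (fun e => c o e ≠ 0)).card := by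
      have := Finset.card_nsmul_le_sum N (fun o => (univ.filter (fun e => c o e ≠ 0)).card) 4
        (fun o ho => h4 (c o) (hcZ o) (mem_filter.1 ho).2)
      simpa [mul_comm] using this
    have h5 : ∑ o ∈ N, (univ.filter (fun e => c o e ≠ 0)).card ≤
        ∑ o, (univ.filter (fun e => c o e ≠ 0)).card :=
      Finset.sum_le_sum_of_subset (subset_univ _)
    have h6 : ∑ o, (univ.filter (fun e => c o e ≠ 0)).card =
        ∑ e, (univ.filter (fun o => c o e ≠ 0)).card := by
      simp only [Finset.card_filter]
      rw [Finset.sum_comm]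
    have h7 : ∑ e, (univ.filter (fun o => c o e ≠ 0)).card ≤ 2 * Fintype.card E := by
      have := Finset.sum_le_card_nsmul univ (fun e => (univ.filter (fun o => c o e ≠ 0)).card) 2
        (fun e _ => hc2 e)
      simpa [mul_comm] using this
    omega
  omega

end Pool.Agent.TWF
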