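import Pool.Agent.TWF.Count
import Pool.Agent.TWF.TwoSpan

set_option autoImplicit false
set_option linter.unusedSectionVars false

/-!
# The cycle space and the planarity criterion of MacLane
-/

open Finset

namespace Pool.Agent.TWF

variable {V : Type*} [Fintype V] [DecidableEq V]

/-- The cycle space modulo two, as functions on the unordered pairs: the functions that vanish
off the edges and have an even sum over the edges at every vertex. -/
def cyc (H : SimpleGraph V) : Submodule (ZMod 2) (Sym2 V → ZMod 2) where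
  carrier := {z | (∀ e, e ∉ H.edgeSet → z e = 0) ∧
    ∀ v : V, ∑ e ∈ univ.filter (fun e : Sym2 V => v ∈ e), z e = 0}
  zero_mem' := by simp
  add_mem' := by
    rintro x y ⟨h1, h2⟩ ⟨h3, h4⟩
    refine ⟨fun e he => ?_, fun v => ?_⟩
    · rw [Pi.add_apply, h1 e he, h3 e he, add_zero]
    · simp only [Pi.add_apply]
      rw [Finset.sum_add_distrib, h2, h4, add_zero]
  smul_mem' := by
    rintro c x ⟨h1, h2⟩
    refine ⟨fun e he => ?_, fun v => ?_⟩
    · rw [Pi.smul_apply, h1 e he, smul_zero]
    · simp only [Pi.smul_apply]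
      rw [← Finset.smul_sum, h2, smul_zero]

/-- The criterion of MacLane: the cycle space is spanned by a family of cycles in which every edge
is used at most twice. -/
def MacLane (H : SimpleGraph V) : Prop := TwoSpan (cyc H)

/-- The boundary. -/
def bd : (Sym2 V → ZMod 2) →ₗ[ZMod 2] (V → ZMod 2) where
  toFun z v := ∑ e ∈ univ.filter (fun e : Sym2 V => v ∈ e), z e
  map_add' x y := by
    funext v
    simp only [Pi.add_apply]
    rw [Finset.sum_add_distrib]
  map_smul' c x := by
    funext v
    simp only [Pi.smul_apply, RingHom.id_apply]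
    rw [← Finset.smul_sum]

lemma bd_apply (z : Sym2 V → ZMod 2) (v : V) :
    bd z v = ∑ e ∈ univ.filter (fun e : Sym2 V => v ∈ e), z e := rfl

lemma mem_cyc {H : SimpleGraph V} {z : Sym2 V → ZMod 2} :
    z ∈ cyc H ↔ (∀ e, e ∉ H.edgeSet → z e = 0) ∧ bd z = 0 := by
  constructor
  · rintro ⟨h1, h2⟩
    exact ⟨h1, funext fun v => h2 v⟩
  · rintro ⟨h1, h2⟩
    exact ⟨h1, fun v => congrFun h2 v⟩

lemma bd_single {a b : V} (hab : a ≠ b) :
    bd (Pi.single s(a, b) (1 : ZMod 2)) = Pi.single a 1 + Pi.single b 1 := by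
  funext v
  rw [bd_apply, Finset.sum_pi_single', Pi.add_apply, Pi.single_apply, Pi.single_apply]
  have h1 : (s(a, b) ∈ univ.filter (fun e : Sym2 V => v ∈ e)) ↔ (v = a ∨ v = b) := by
    rw [mem_filter, Sym2.mem_iff]
    simp
  rw [if_congr h1 rfl rfl]
  by_cases h2 : v = a
  · subst h2
    simp [hab]
  · by_cases h3 : v = b
    · subst h3
      simp [hab.symm]
    · simp [h2, h3]

/-- Every even function on a connected set is a boundary. -/
lemma conn_lift {H : SimpleGraph V} {C : Finset V} (hC : Conn H C) {f : V → ZMod 2}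
    (hf : ∀ v, v ∉ C → f v = 0) (hs : ∑ v ∈ C, f v = 0) :
    ∃ z : Sym2 V → ZMod 2, (∀ e, z e ≠ 0 → e ∈ H.edgeSet ∧ ∀ v ∈ e, v ∈ C) ∧ bd z = f := by
  classical
  obtain ⟨⟨c, hc⟩, hconn⟩ := hC
  set D := C.filter (fun v => ∃ z : Sym2 V → ZMod 2,
    (∀ e, z e ≠ 0 → e ∈ H.edgeSet ∧ ∀ v ∈ e, v ∈ C) ∧ bd z = Pi.single v 1 + Pi.single c 1)
    with hD
  have h1 : D = C := by
    apply hconn
    · refine ⟨filter_subset _ _, fun a ha b hb hab => ?_⟩
      rw [hD, mem_filter] at ha ⊢
      obtain ⟨haC, z, hz, hza⟩ := ha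
      refine ⟨hb, z + Pi.single s(a, b) 1, fun e he => ?_, ?_⟩
      · by_cases h2 : e = s(a, b)
        · subst h2
          refine ⟨hab, fun v hv => ?_⟩
          rw [Sym2.mem_iff] at hv
          rcases hv with rfl | rfl
          · exact haC
          · exact hb
        · rw [Pi.add_apply, Pi.single_eq_of_ne h2, add_zero] at he
          exact hz e he
      · rw [map_add, hza, bd_single hab.ne]
        funext v
        simp only [Pi.add_apply]
        have := CharTwo.add_self_eq_zero ((Pi.single a (1 : ZMod 2) : V → ZMod 2) v)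
        linear_combination this
    · refine ⟨c, ?_⟩
      rw [hD, mem_filter]
      refine ⟨hc, 0, fun e he => absurd rfl he, ?_⟩
      rw [map_zero]
      funext v
      exact (CharTwo.add_self_eq_zero _).symm
  have h2 : ∀ v, ∃ z : Sym2 V → ZMod 2, v ∈ C →
      (∀ e, z e ≠ 0 → e ∈ H.edgeSet ∧ ∀ v ∈ e, v ∈ C) ∧
        bd z = Pi.single v 1 + Pi.single c 1 := by
    intro v
    by_cases hv : v ∈ C
    · rw [← h1, hD, mem_filter] at hv
      obtain ⟨-, z, hz⟩ := hv
      exact ⟨z, fun _ => hz⟩
    · exact ⟨0, fun h => absurd h hv⟩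
  choose w hw using h2
  refine ⟨∑ v ∈ C, f v • w v, fun e he => ?_, ?_⟩
  · rw [Finset.sum_apply] at he
    obtain ⟨v, hv, hne⟩ := Finset.exists_ne_zero_of_sum_ne_zero he
    rw [Pi.smul_apply, smul_eq_mul] at hne
    exact (hw v hv).1 e (right_ne_zero_of_mul hne)
  · rw [map_sum]
    have h3 : ∀ v ∈ C, bd (f v • w v) = f v • Pi.single v 1 + f v • Pi.single c 1 := by
      intro v hv
      rw [map_smul, (hw v hv).2, smul_add]
    rw [Finset.sum_congr rfl h3, Finset.sum_add_distrib, ← Finset.sum_smul, hs, zero_smul,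
      add_zero]
    funext v
    rw [Finset.sum_apply]
    by_cases hv : v ∈ C
    · rw [Finset.sum_eq_single v]
      · simp
      · intro u _ huv
        rw [Pi.smul_apply, Pi.single_eq_of_ne huv.symm, smul_zero]
      · intro h
        exact absurd hv h
    · rw [hf v hv]
      refine Finset.sum_eq_zero fun u hu => ?_
      have huv : v ≠ u := fun h => hv (h ▸ hu)
      rw [Pi.smul_apply, Pi.single_eq_of_ne huv, smul_zero]

/-- The number of ends of `e` in `C`, modulo two. -/
def ends (C : Finset V) (e : Sym2 V) : ZMod 2 := ((C.filter (fun v => v ∈ e)).card : ZMod 2)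

lemma sum_bd (z : Sym2 V → ZMod 2) (C : Finset V) : ∑ v ∈ C, bd z v = ∑ e, ends C e * z e := by
  simp only [bd_apply, Finset.sum_filter]
  rw [Finset.sum_comm]
  refine Finset.sum_congr rfl fun e _ => ?_
  unfold ends
  rw [Finset.card_filter, Nat.cast_sum, Finset.sum_mul]
  refine Finset.sum_congr rfl fun v _ => ?_
  by_cases h : v ∈ e
  · rw [if_pos h, if_pos h]
    simp
  · rw [if_neg h, if_neg h]
    simp

lemma ends_mk {C : Finset V} {a b : V} (hab : a ≠ b) :
    ends C s(a, b) = (if a ∈ C then 1 else 0) + (if b ∈ C then 1 else 0) := by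
  have h1 : C.filter (fun v => v ∈ s(a, b)) = C.filter (fun v => a = v) ∪
      C.filter (fun v => b = v) := by
    rw [← Finset.filter_or]
    refine Finset.filter_congr fun v _ => ?_
    rw [Sym2.mem_iff, eq_comm (a := v), eq_comm (a := v)]
  have h2 : Disjoint (C.filter (fun v => a = v)) (C.filter (fun v => b = v)) := by
    rw [Finset.disjoint_left]
    intro v h3 h4
    rw [mem_filter] at h3 h4
    exact hab (h3.2.trans h4.2.symm)
  unfold ends
  rw [h1, card_union_of_disjoint h2, Nat.cast_add, Finset.filter_eq, Finset.filter_eq]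
  congr 1
  · by_cases h : a ∈ C
    · rw [if_pos h, if_pos h]; simp
    · rw [if_neg h, if_neg h]; simp
  · by_cases h : b ∈ C
    · rw [if_pos h, if_pos h]; simp
    · rw [if_neg h, if_neg h]; simp

end Pool.Agent.TWF
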