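import Pool.Agent.TWF.Atoms

set_option autoImplicit false
set_option linter.unusedSectionVars false

/-!
# The barrier of a graph without 2-factor
-/

open Finset

namespace Pool.Agent.TWF

variable {V : Type*} [Fintype V] [DecidableEq V]

/-- The neighbours of `v` in `B`. -/
noncomputable def nb (G : SimpleGraph V) (B : Finset V) (v : V) : Finset V := by
  classical exact B.filter (fun b => G.Adj v b)

lemma mem_nb {G : SimpleGraph V} {B : Finset V} {v b : V} : b ∈ nb G B v ↔ b ∈ B ∧ G.Adj v b := by
  classical
  unfold nb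
  simp

/-- The number of pairs of adjacent vertices, the first in `A`, the second in `B`. -/
noncomputable def ee (G : SimpleGraph V) (A B : Finset V) : ℕ := ∑ a ∈ A, (nb G B a).card

lemma ee_eq (G : SimpleGraph V) [DecidableRel G.Adj] (A B : Finset V) :
    ee G A B = ∑ a ∈ A, ∑ b ∈ B, if G.Adj a b then 1 else 0 := by
  unfold ee
  refine Finset.sum_congr rfl fun a _ => ?_
  rw [← Finset.card_filter]
  congr 1
  ext b
  rw [mem_nb, mem_filter]

lemma ee_comm (G : SimpleGraph V) (A B : Finset V) : ee G A B = ee G B A := by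
  classical
  rw [ee_eq, ee_eq, Finset.sum_comm]
  simp only [G.adj_comm]

lemma ee_union_right (G : SimpleGraph V) (A : Finset V) {B B' : Finset V} (h : Disjoint B B') :
    ee G A (B ∪ B') = ee G A B + ee G A B' := by
  classical
  rw [ee_eq, ee_eq, ee_eq, ← Finset.sum_add_distrib]
  refine Finset.sum_congr rfl fun a _ => ?_
  rw [Finset.sum_union h]

lemma ee_union_left (G : SimpleGraph V) (A : Finset V) {B B' : Finset V} (h : Disjoint B B') :
    ee G (B ∪ B') A = ee G B A + ee G B' A := by
  rw [ee_comm, ee_union_right G A h, ee_comm G A B, ee_comm G A B']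

lemma ee_self_even (G : SimpleGraph V) (A : Finset V) : Even (ee G A A) := by
  classical
  induction A using Finset.induction_on with
  | empty => simp [ee]
  | insert x A hx ih =>
    have hd : Disjoint {x} A := by simpa using hx
    rw [insert_eq, ee_union_left G _ hd, ee_union_right G _ hd, ee_union_right G _ hd]
    have h0 : ee G {x} {x} = 0 := by
      rw [ee_eq]
      simp
    rw [h0, ee_comm G A {x}, zero_add, ← add_assoc]
    exact (Even.add_self _).add ih

lemma ee_zero (G : SimpleGraph V) {A B : Finset V} (h : ∀ a ∈ A, ∀ b ∈ B, ¬ G.Adj a b) :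
    ee G A B = 0 := by
  classical
  rw [ee_eq]
  refine Finset.sum_eq_zero fun a ha => Finset.sum_eq_zero fun b hb => ?_
  rw [if_neg (h a ha b hb)]

lemma dart_count (G : SimpleGraph V) [DecidableRel G.Adj] (A B : Finset V) :
    ((univ : Finset G.Dart).filter (fun d => d.fst ∈ A ∧ d.snd ∈ B)).card = ee G A B := by
  have h1 : ee G A B = ((A ×ˢ B).filter (fun p => G.Adj p.1 p.2)).card := by
    rw [ee_eq, Finset.card_filter, Finset.sum_product]
  rw [h1]
  refine Finset.card_bij (fun d _ => d.toProd) ?_ ?_ ?_
  · intro d hd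
    rw [mem_filter] at hd
    rw [mem_filter, mem_product]
    exact ⟨hd.2, d.adj⟩
  · intro d _ d' _ h
    exact SimpleGraph.Dart.ext _ _ h
  · intro p hp
    rw [mem_filter, mem_product] at hp
    exact ⟨⟨p, hp.2⟩, by simp [hp.1], rfl⟩

/-- Adjacency in the gadget graph. -/
def gadAdj (G : SimpleGraph V) : (V × Bool) ⊕ G.Dart → (V × Bool) ⊕ G.Dart → Prop
  | .inl _, .inl _ => False
  | .inl p, .inr d => d.fst = p.1
  | .inr d, .inl p => d.fst = p.1
  | .inr d, .inr d' => d' = d.symm

/-- The gadget graph: its perfect matchings are the 2-factors. -/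
def gad (G : SimpleGraph V) : SimpleGraph ((V × Bool) ⊕ G.Dart) where
  Adj := gadAdj G
  symm := ⟨by
    rintro (p | d) (q | e) h
    · exact h
    · exact h
    · exact h
    · have h' : e = d.symm := h
      change d = e.symm
      rw [h', SimpleGraph.Dart.symm_symm]⟩
  loopless := ⟨by
    rintro (p | d) h
    · exact h
    · exact (SimpleGraph.Dart.symm_ne d) (Eq.symm h)⟩

lemma gad_inl_inl (G : SimpleGraph V) (p q : V × Bool) :
    ¬ (gad G).Adj (Sum.inl p) (Sum.inl q) := fun h => h

lemma gad_inl_inr (G : SimpleGraph V) (p : V × Bool) (d : G.Dart) :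
    (gad G).Adj (Sum.inl p) (Sum.inr d) ↔ d.fst = p.1 := Iff.rfl

lemma gad_inr_inl (G : SimpleGraph V) (p : V × Bool) (d : G.Dart) :
    (gad G).Adj (Sum.inr d) (Sum.inl p) ↔ d.fst = p.1 := Iff.rfl

lemma gad_inr_inr (G : SimpleGraph V) (d e : G.Dart) :
    (gad G).Adj (Sum.inr d) (Sum.inr e) ↔ e = d.symm := Iff.rfl

/-- A perfect matching of the gadget gives a 2-factor. -/
theorem factor_of_matching (G : SimpleGraph V) (M : (gad G).Subgraph)
    (hM : M.IsPerfectMatching) :
    ∃ F : SimpleGraph V, F ≤ G ∧ ∀ v, {w | F.Adj v w}.ncard = 2 := by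
  classical
  have hu : ∀ w, ∃! w', M.Adj w w' := fun w => hM.1 (hM.2 w)
  let F : SimpleGraph V :=
    { Adj := fun u v => ∃ d : G.Dart, d.fst = u ∧ d.snd = v ∧ ¬ M.Adj (Sum.inr d) (Sum.inr d.symm)
      symm := ⟨by
        rintro u v ⟨d, h1, h2, h3⟩
        refine ⟨d.symm, h2, h1, fun h4 => h3 ?_⟩
        rw [SimpleGraph.Dart.symm_symm] at h4
        exact h4.symm⟩
      loopless := ⟨by
        rintro u ⟨d, h1, h2, -⟩
        exact d.fst_ne_snd (h1.trans h2.symm)⟩ }
  refine ⟨F, ?_, ?_⟩
  · rintro u v ⟨d, rfl, rfl, -⟩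
    exact d.adj
  · intro v
    have hcore : ∀ i : Bool, ∃ d : G.Dart, d.fst = v ∧ M.Adj (Sum.inl (v, i)) (Sum.inr d) := by
      intro i
      obtain ⟨w', hw', -⟩ := hu (Sum.inl (v, i))
      rcases w' with q | d
      · exact absurd (M.adj_sub hw') (gad_inl_inl G _ _)
      · exact ⟨d, (gad_inl_inr G _ _).1 (M.adj_sub hw'), hw'⟩
    obtain ⟨d0, h0, h0'⟩ := hcore false
    obtain ⟨d1, h1, h1'⟩ := hcore true
    have hne : d0 ≠ d1 := by
      rintro rfl
      have := (hu (Sum.inr d0)).unique h0'.symm h1'.symm
      simp at this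
    have hsnd : d0.snd ≠ d1.snd := by
      intro h
      apply hne
      refine SimpleGraph.Dart.ext _ _ (Prod.ext ?_ h)
      exact h0.trans h1.symm
    have hset : {w | F.Adj v w} = {d0.snd, d1.snd} := by
      ext w
      simp only [Set.mem_ofPred_eq, Set.mem_insert_iff, Set.mem_singleton_iff]
      constructor
      · rintro ⟨d, hd1, hd2, hd3⟩
        obtain ⟨w', hw', -⟩ := hu (Sum.inr d)
        rcases w' with ⟨x, i⟩ | e
        · have hx : d.fst = x := (gad_inr_inl G _ _).1 (M.adj_sub hw')
          have hxv : x = v := hx.symm.trans hd1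
          subst hxv
          cases i with
          | false =>
            have h5 := (hu (Sum.inl (x, false))).unique h0' hw'.symm
            left
            rw [Sum.inr.injEq] at h5
            rw [h5, hd2]
          | true =>
            have h5 := (hu (Sum.inl (x, true))).unique h1' hw'.symm
            right
            rw [Sum.inr.injEq] at h5
            rw [h5, hd2]
        · have he : e = d.symm := (gad_inr_inr G _ _).1 (M.adj_sub hw')
          rw [he] at hw'
          exact absurd hw' hd3
      · rintro (rfl | rfl)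
        · refine ⟨d0, h0, rfl, fun h => ?_⟩
          have := (hu (Sum.inr d0)).unique h0'.symm h
          simp at this
        · refine ⟨d1, h1, rfl, fun h => ?_⟩
          have := (hu (Sum.inr d1)).unique h1'.symm h
          simp at this
    rw [hset]
    exact Set.ncard_pair hsnd

end Pool.Agent.TWF
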