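import Pool.Agent.TWF.Six

set_option autoImplicit false
set_option linter.unusedSectionVars false

/-!
# The main counting argument
-/

open Finset

namespace Pool.Agent.TWF

variable {V : Type*} [Fintype V] [DecidableEq V] {G : SimpleGraph V} {S T : Finset V}

lemma conn_singleton {H : SimpleGraph V} (s : V) : Conn H {s} := by
  refine ⟨singleton_nonempty s, fun D hD hne => ?_⟩
  exact (Finset.subset_singleton_iff.1 hD.1).resolve_left hne.ne_empty

lemma YY_inj {H : SimpleGraph V} (hd : Disjoint S T) {x z : V} (hx : x ∈ T) (hz : z ∈ T)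
    (h : YY G H S T x = YY G H S T z) : x = z := by
  have h1 : x ∈ YY G H S T z := by rw [← h]; exact self_YY
  exact (XX_T hd hz (YY_sub h1)).2 hx

/-- The pairs of the bipartite minor. -/
noncomputable def PP (G H : SimpleGraph V) (S T : Finset V) : Finset (Finset V × Finset V) := by
  classical exact T.biUnion (fun x =>
    ((nbh H (YY G H S T x) ∩ S).image (fun s => (YY G H S T x, ({s} : Finset V)))) ∪
      ((kept G H S T).filter (fun C => AdjS H (YY G H S T x) C)).image
        (fun C => (YY G H S T x, C)))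

/-- The sets on the other side. -/
noncomputable def BB (G H : SimpleGraph V) (S T : Finset V) : Finset (Finset V) :=
  S.image (fun s => ({s} : Finset V)) ∪ kept G H S T

lemma kept_oc {H : SimpleGraph V} {C : Finset V} (hC : C ∈ kept G H S T) : C ∈ oc G S T :=
  (mem_O3.1 (mem_kept.1 hC).1).1

lemma card_BB {H : SimpleGraph V} : (BB G H S T).card = S.card + (kept G H S T).card := by
  unfold BB
  rw [card_union_of_disjoint, card_image_of_injective _ singleton_injective]
  rw [Finset.disjoint_left]
  intro C h1 h2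
  rw [mem_image] at h1
  obtain ⟨s, hs, rfl⟩ := h1
  exact (oc_not_mem (kept_oc h2) (mem_singleton_self s)).1 hs

lemma card_PP {H : SimpleGraph V} (hd : Disjoint S T) :
    (PP G H S T).card = ∑ x ∈ T, ((nbh H (YY G H S T x) ∩ S).card +
      (by classical exact ((kept G H S T).filter (fun C => AdjS H (YY G H S T x) C)).card)) := by
  classical
  unfold PP
  rw [Finset.card_biUnion]
  · refine Finset.sum_congr rfl fun x hx => ?_
    rw [card_union_of_disjoint, card_image_of_injective, card_image_of_injective]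
    · intro C D h
      exact (Prod.ext_iff.1 h).2
    · intro a b h
      exact singleton_injective (Prod.ext_iff.1 h).2
    · rw [Finset.disjoint_left]
      intro p h1 h2
      rw [mem_image] at h1 h2
      obtain ⟨s, hs, rfl⟩ := h1
      obtain ⟨C, hC, h3⟩ := h2
      have h4 : C = {s} := (Prod.ext_iff.1 h3).2
      subst h4
      exact (oc_not_mem (kept_oc (mem_filter.1 hC).1) (mem_singleton_self s)).1
        (mem_inter.1 hs).2
  · intro x hx z hz hxz
    refine Finset.disjoint_left.2 ?_
    intro p h1 h2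
    have h3 : ∀ y, p ∈ (((nbh H (YY G H S T y) ∩ S).image
        (fun s => (YY G H S T y, ({s} : Finset V)))) ∪
        ((kept G H S T).filter (fun C => AdjS H (YY G H S T y) C)).image
        (fun C => (YY G H S T y, C))) → p.1 = YY G H S T y := by
      intro y hy
      rw [mem_union, mem_image, mem_image] at hy
      rcases hy with ⟨s, -, rfl⟩ | ⟨C, -, rfl⟩ <;> rfl
    exact hxz (YY_inj hd hx hz ((h3 x h1).symm.trans (h3 z h2)))

lemma PP_pairs {H : SimpleGraph V} : ∀ p ∈ PP G H S T,
    p.1 ∈ T.image (fun x => YY G H S T x) ∧ p.2 ∈ BB G H S T ∧ AdjS H p.1 p.2 := by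
  classical
  intro p hp
  unfold PP at hp
  rw [mem_biUnion] at hp
  obtain ⟨x, hx, hp⟩ := hp
  rw [mem_union, mem_image, mem_image] at hp
  unfold BB
  rcases hp with ⟨s, hs, rfl⟩ | ⟨C, hC, rfl⟩
  · rw [mem_inter] at hs
    obtain ⟨-, y, hy, hys⟩ := mem_nbh.1 hs.1
    refine ⟨mem_image_of_mem _ hx, mem_union_left _ (mem_image_of_mem _ hs.2), y, hy, s,
      mem_singleton_self s, hys⟩
  · rw [mem_filter] at hC
    exact ⟨mem_image_of_mem _ hx, mem_union_right _ hC.1, hC.2⟩

lemma YY_BB {H : SimpleGraph V} (hd : Disjoint S T) {x : V} (hx : x ∈ T) {B : Finset V}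
    (hB : B ∈ BB G H S T) : Disjoint (YY G H S T x) B := by
  rw [Finset.disjoint_left]
  intro v hv hvB
  unfold BB at hB
  rw [mem_union, mem_image] at hB
  rcases hB with ⟨s, hs, rfl⟩ | hB
  · rw [mem_singleton] at hvB
    subst hvB
    exact (XX_T hd hx (YY_sub hv)).1 hs
  · have h3 := mem_O3.1 (mem_kept.1 hB).1
    rcases mem_XX.1 (YY_sub hv) with rfl | ⟨D, hD, hD1, -, hvD⟩
    · exact (oc_not_mem h3.1 hvB).2 hx
    · rw [oc_eq h3.1 hD hvB hvD] at h3
      exact h3.2 hD1

lemma BB_disj {H : SimpleGraph V} {A B : Finset V} (hA : A ∈ BB G H S T) (hB : B ∈ BB G H S T)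
    (hAB : A ≠ B) : Disjoint A B := by
  rw [Finset.disjoint_left]
  intro v hv hvB
  unfold BB at hA hB
  rw [mem_union, mem_image] at hA hB
  rcases hA with ⟨s, hs, rfl⟩ | hA <;> rcases hB with ⟨s', hs', rfl⟩ | hB
  · rw [mem_singleton] at hv hvB
    subst hv
    subst hvB
    exact hAB rfl
  · rw [mem_singleton] at hv
    subst hv
    exact (oc_not_mem (kept_oc hB) hvB).1 hs
  · rw [mem_singleton] at hvB
    subst hvB
    exact (oc_not_mem (kept_oc hA) hv).1 hs'
  · exact hAB (oc_eq (kept_oc hA) (kept_oc hB) hv hvB)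

lemma all_disj {H : SimpleGraph V} (hst : Str G S T) (hd : Disjoint S T) :
    ∀ A ∈ T.image (fun x => YY G H S T x) ∪ BB G H S T,
    ∀ B ∈ T.image (fun x => YY G H S T x) ∪ BB G H S T, A ≠ B → Disjoint A B := by
  intro A hA B hB hAB
  rw [mem_union, mem_image] at hA hB
  rcases hA with ⟨x, hx, rfl⟩ | hA <;> rcases hB with ⟨z, hz, rfl⟩ | hB
  · rw [Finset.disjoint_left]
    intro v hv hvz
    have hxz : x ≠ z := fun h => hAB (by rw [h])
    exact (XX_no_edge hst hd hx hz hxz (YY_sub hv) (YY_sub hvz)).1 rfl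
  · exact YY_BB hd hx hB
  · exact (YY_BB hd hz hA).symm
  · exact BB_disj hA hB hAB

/-- The case of a single vertex. -/
lemma single_false (h5 : 5 ≤ Fintype.card V) (h4 : FourConn G) (hst : Str G S T)
    (hS : S = ∅) {x : V} (hT : T = {x}) : False := by
  have h1 := deg_four h5 h4 x
  obtain ⟨w, hw, w', hw', hne⟩ := Finset.one_lt_card.1 (show 1 < (nbh G {x}).card by omega)
  have hxw : G.Adj x w := by
    obtain ⟨-, y, hy, hyw⟩ := mem_nbh.1 hw
    rw [mem_singleton] at hy
    rwa [← hy]
  have hxw' : G.Adj x w' := by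
    obtain ⟨-, y, hy, hyw⟩ := mem_nbh.1 hw'
    rw [mem_singleton] at hy
    rwa [← hy]
  have hxT : x ∈ T := by rw [hT]; exact mem_singleton_self x
  obtain ⟨C, hC, hCw⟩ := hst x hxT w (by rw [hS]; simp) hxw
  have hwC : w ∈ C := (mem_nb.1 (by rw [hCw]; exact mem_singleton_self w)).1
  have hw'C : w' ∉ C := by
    intro h
    have h2 : w' ∈ nb G C x := mem_nb.2 ⟨h, hxw'⟩
    rw [hCw, mem_singleton] at h2
    exact hne h2.symm
  have hsub : nbh G C ⊆ {x} := by
    intro v hv
    obtain ⟨hvC, a, ha, hav⟩ := mem_nbh.1 hv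
    by_contra hvx
    refine hvC ((atoms_closed (mem_oc.1 hC).1).2 a ha v ?_ hav)
    rw [mem_compl, mem_union, hS, hT]
    simpa using hvx
  have h3 : 4 ≤ (nbh G C).card := by
    refine four_le h4 hwC hw'C fun h => ?_
    have h6 := mem_singleton.1 (hsub h)
    exact hxw'.ne h6.symm
  have h6 := card_le_card hsub
  rw [card_singleton] at h6
  omega

/-- At least six edges must be deleted. -/
theorem six_le {H : SimpleGraph V} {E' : Finset (Sym2 V)} (h5 : 5 ≤ Fintype.card V)
    (h4 : FourConn G) (hH : H ≤ G) (hE : ∀ u v, G.Adj u v → ¬ H.Adj u v → s(u, v) ∈ E')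
    (hB : BipSparse H)
    (h2 : ¬ ∃ F : SimpleGraph V, F ≤ G ∧ ∀ v, {w | F.Adj v w}.ncard = 2) : 6 ≤ E'.card := by
  classical
  have hdeg : ∀ v, ∃ w, G.Adj v w := by
    intro v
    obtain ⟨w, hw⟩ := card_pos.1 (show 0 < (nbh G {v}).card by
      have := deg_four h5 h4 v
      omega)
    obtain ⟨-, y, hy, hyw⟩ := mem_nbh.1 hw
    rw [mem_singleton] at hy
    subst hy
    exact ⟨w, hyw⟩
  obtain ⟨S, T, hd, hle, hst⟩ := barrier_min G hdeg h2
  have hst : Str G S T := hst
  have hA := boundA H hd hle
  have hEb := boundE (H := H) (E' := E') hst hd hE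
  have h3d : 3 * (dropped G H S T).card ≤ ∑ C ∈ dropped G H S T, ee G C T := by
    have := Finset.card_nsmul_le_sum (dropped G H S T) (fun C => ee G C T) 3
      (fun C hC => O3_three (mem_dropped.1 hC).1)
    simpa [mul_comm] using this
  have ht1 : T.card ≠ 1 := by
    intro h
    obtain ⟨x, hx⟩ := card_eq_one.1 h
    have hS : S = ∅ := by
      rw [← card_eq_zero]
      omega
    exact single_false h5 h4 hst hS hx
  have ht2 : 2 ≤ T.card := by omega
  have hloc : ∀ x ∈ T, 4 ≤ (nbh G (YY G H S T x)).card := by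
    intro x hx
    obtain ⟨z, hz, hzx⟩ := Finset.exists_mem_ne (show 1 < T.card by omega) x
    refine four_le h4 (self_YY (x := x)) (z := z) ?_ ?_
    · intro h
      exact hzx ((XX_T hd hx (YY_sub h)).2 hz)
    · intro h
      obtain ⟨-, y, hy, hyz⟩ := mem_nbh.1 h
      exact (XX_no_edge hst hd hx hz hzx.symm (YY_sub hy) self_XX).2 hyz
  have hsum : 4 * T.card ≤ (PP G H S T).card + ∑ C ∈ dropped G H S T, ee G C T +
      ∑ x ∈ T, (Ph G H E' S T x).card := by
    have h6 : ∑ x ∈ T, 4 ≤ ∑ x ∈ T, (((nbh H (YY G H S T x) ∩ S).card +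
      ((kept G H S T).filter (fun C => AdjS H (YY G H S T x) C)).card) +
      ((dropped G H S T).filter (fun C => (nb G C x).Nonempty)).card +
      (Ph G H E' S T x).card) := by
      refine Finset.sum_le_sum fun x hx => ?_
      have h7 := hloc x hx
      have h8 := nbh_le (S := S) (T := T) hE (x := x)
      have h9 := boundD hst hd hH hx
      refine h7.trans (h8.trans (Nat.add_le_add_right ?_ _))
      exact h9
    rw [Finset.sum_add_distrib, Finset.sum_add_distrib] at h6
    have h7 := card_PP (G := G) (H := H) hd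
    have h8 := sum_dropped (G := G) (S := S) (T := T) H
    rw [Finset.sum_const, smul_eq_mul] at h6
    have h9 : (PP G H S T).card = ∑ x ∈ T, ((nbh H (YY G H S T x) ∩ S).card +
      ((kept G H S T).filter (fun C => AdjS H (YY G H S T x) C)).card) := h7
    rw [← h9] at h6
    omega
  by_cases hsmall : 3 ≤ T.card + (S.card + (kept G H S T).card)
  · have hAc : (T.image (fun x => YY G H S T x)).card = T.card := by
      refine card_image_of_injOn ?_
      intro x hx z hz h
      exact YY_inj hd hx hz h
    have hP := hB (T.image (fun x => YY G H S T x)) (BB G H S T) (PP G H S T) ?_ ?_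
      (all_disj hst hd) ?_ ?_ PP_pairs
    · rw [hAc, card_BB] at hP
      omega
    · intro A hA
      rw [mem_image] at hA
      obtain ⟨x, -, rfl⟩ := hA
      exact YY_conn
    · intro B hB
      unfold BB at hB
      rw [mem_union, mem_image] at hB
      rcases hB with ⟨s, -, rfl⟩ | hB
      · exact conn_singleton s
      · exact (mem_kept.1 hB).2
    · rw [Finset.disjoint_left]
      intro A h6 h7
      rw [mem_image] at h6
      obtain ⟨x, hx, rfl⟩ := h6
      exact (Finset.disjoint_left.1 (YY_BB hd hx h7)) self_YY self_YY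
    · rw [hAc, card_BB]
      exact hsmall
  · have ht : T.card = 2 := by omega
    have hdr : dropped G H S T = ∅ := by
      rw [Finset.eq_empty_iff_forall_notMem]
      intro C hC
      have h6 := O3_three (mem_dropped.1 hC).1
      have hoc := (mem_O3.1 (mem_dropped.1 hC).1).1
      have h7 : ee G C T ≤ T.card := by
        rw [ee_comm]
        unfold ee
        have := Finset.sum_le_card_nsmul T (fun x => (nb G C x).card) 1
          (fun x hx => nb_card_le hst hx hoc)
        simpa using this
      omega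
    have hPP : (PP G H S T).card = 0 := by
      rw [card_eq_zero, Finset.eq_empty_iff_forall_notMem]
      intro p hp
      have h6 := (PP_pairs p hp).2.1
      have h7 : (BB G H S T).card = 0 := by
        rw [card_BB]
        omega
      rw [card_eq_zero] at h7
      rw [h7] at h6
      simp at h6
    rw [hdr] at hsum
    simp only [Finset.sum_empty] at hsum
    omega

end Pool.Agent.TWF
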