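import Pool.Agent.TWF.Count

set_option autoImplicit false
set_option linter.unusedSectionVars false

/-!
# At least six edges must be deleted
-/

open Finset

namespace Pool.Agent.TWF

variable {V : Type*} [Fintype V] [DecidableEq V] {G : SimpleGraph V} {S T : Finset V}

/-- The deleted edges at `YY x`. -/
noncomputable def Ph (G H : SimpleGraph V) (E' : Finset (Sym2 V)) (S T : Finset V) (x : V) :
    Finset (Sym2 V) := by
  classical exact E'.filter (fun e => e ∈ G.edgeSet ∧ ∃ y ∈ YY G H S T x, y ∈ e)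

lemma mem_Ph {H : SimpleGraph V} {E' : Finset (Sym2 V)} {x : V} {e : Sym2 V} :
    e ∈ Ph G H E' S T x ↔ e ∈ E' ∧ e ∈ G.edgeSet ∧ ∃ y ∈ YY G H S T x, y ∈ e := by
  classical
  unfold Ph
  simp

lemma nbh_le {H : SimpleGraph V} {E' : Finset (Sym2 V)}
    (hE : ∀ u v, G.Adj u v → ¬ H.Adj u v → s(u, v) ∈ E') {x : V} :
    (nbh G (YY G H S T x)).card ≤ (nbh H (YY G H S T x)).card + (Ph G H E' S T x).card := by
  classical
  set Y := YY G H S T x with hY
  have hx : Nonempty V := ⟨x⟩
  have h1 : ∀ w ∈ nbh G Y \ nbh H Y, ∃ y, y ∈ Y ∧ G.Adj y w ∧ s(y, w) ∈ E' := by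
    intro w hw
    rw [mem_sdiff] at hw
    obtain ⟨h2, y, hy, hyw⟩ := mem_nbh.1 hw.1
    refine ⟨y, hy, hyw, hE y w hyw fun h3 => hw.2 (mem_nbh.2 ⟨h2, y, hy, h3⟩)⟩
  choose! f hf using h1
  have h2 : (nbh G Y \ nbh H Y).card ≤ (Ph G H E' S T x).card := by
    refine Finset.card_le_card_of_injOn (fun w => s(f w, w)) ?_ ?_
    · intro w hw
      have h3 := hf w hw
      exact mem_Ph.2 ⟨h3.2.2, h3.2.1, f w, h3.1, by simp⟩
    · intro w hw w' hw' heq
      have h3 := hf w hw
      have h4 := hf w' hw'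
      have hwm : w ∉ Y := (mem_nbh.1 (mem_sdiff.1 (mem_coe.1 hw)).1).1
      rw [Sym2.eq_iff] at heq
      rcases heq with h | h
      · exact h.2
      · exact absurd (h.2 ▸ h4.1) hwm
  have h3 : nbh G Y ⊆ nbh H Y ∪ (nbh G Y \ nbh H Y) := by
    intro w hw
    rw [mem_union, mem_sdiff]
    tauto
  exact (card_le_card h3).trans ((card_union_le _ _).trans (Nat.add_le_add_left h2 _))

/-- The components in `O3` that stay connected. -/
noncomputable def kept (G H : SimpleGraph V) (S T : Finset V) : Finset (Finset V) := by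
  classical exact (O3 G S T).filter (fun C => Conn H C)

/-- The components in `O3` that do not stay connected. -/
noncomputable def dropped (G H : SimpleGraph V) (S T : Finset V) : Finset (Finset V) := by
  classical exact (O3 G S T).filter (fun C => ¬ Conn H C)

lemma mem_kept {H : SimpleGraph V} {C : Finset V} :
    C ∈ kept G H S T ↔ C ∈ O3 G S T ∧ Conn H C := by
  classical
  unfold kept
  simp

lemma mem_dropped {H : SimpleGraph V} {C : Finset V} :
    C ∈ dropped G H S T ↔ C ∈ O3 G S T ∧ ¬ Conn H C := by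
  classical
  unfold dropped
  simp

lemma mem_O3 {C : Finset V} : C ∈ O3 G S T ↔ C ∈ oc G S T ∧ ee G C T ≠ 1 := by
  unfold O3
  simp

lemma O3_three {C : Finset V} (hC : C ∈ O3 G S T) : 3 ≤ ee G C T := by
  rw [mem_O3, mem_oc] at hC
  obtain ⟨k, hk⟩ := hC.1.2
  omega

lemma sum_split (H : SimpleGraph V) (f : Finset V → ℕ) :
    ∑ C ∈ oc G S T, f C = ∑ C ∈ (oc G S T).filter (fun C => ee G C T = 1), f C +
      (∑ C ∈ kept G H S T, f C + ∑ C ∈ dropped G H S T, f C) := by
  classical
  have h1 : ∑ C ∈ kept G H S T, f C + ∑ C ∈ dropped G H S T, f C = ∑ C ∈ O3 G S T, f C := by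
    unfold kept dropped
    exact Finset.sum_filter_add_sum_filter_not _ _ _
  rw [h1]
  unfold O3
  exact (Finset.sum_filter_add_sum_filter_not _ _ _).symm

lemma boundA (H : SimpleGraph V) (hd : Disjoint S T)
    (hle : 2 * S.card + ee G T Sᶜ + 2 ≤ 2 * T.card + (oc G S T).card) :
    2 * S.card + 2 * (kept G H S T).card + ∑ C ∈ dropped G H S T, ee G C T + 2 ≤
      2 * T.card + (dropped G H S T).card := by
  have h1 := sum_oc_le (G := G) hd
  rw [sum_split H] at h1
  have h2 : (oc G S T).card = ((oc G S T).filter (fun C => ee G C T = 1)).card +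
      ((kept G H S T).card + (dropped G H S T).card) := by
    have := sum_split (G := G) (S := S) (T := T) H (fun _ => 1)
    simpa using this
  have h3 : ∑ C ∈ (oc G S T).filter (fun C => ee G C T = 1), ee G C T =
      ((oc G S T).filter (fun C => ee G C T = 1)).card := by
    rw [Finset.card_eq_sum_ones]
    refine Finset.sum_congr rfl fun C hC => ?_
    exact (mem_filter.1 hC).2
  have h4 : 3 * (kept G H S T).card ≤ ∑ C ∈ kept G H S T, ee G C T := by
    have := Finset.card_nsmul_le_sum (kept G H S T) (fun C => ee G C T) 3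
      (fun C hC => O3_three (mem_kept.1 hC).1)
    simpa [mul_comm] using this
  omega

/-- Each dropped component contains a deleted edge. -/
lemma dropped_edge {H : SimpleGraph V} {E' : Finset (Sym2 V)}
    (hE : ∀ u v, G.Adj u v → ¬ H.Adj u v → s(u, v) ∈ E') {C : Finset V}
    (hC : C ∈ dropped G H S T) : ∃ e, e ∈ E' ∧ ∀ v ∈ e, v ∈ C := by
  have hC' := mem_dropped.1 hC
  have hat := (mem_oc.1 (mem_O3.1 hC'.1).1).1
  have hne := atoms_nonempty hat
  have h1 : ∃ D, Closed H C D ∧ D.Nonempty ∧ D ≠ C := by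
    by_contra hcon
    push Not at hcon
    exact hC'.2 ⟨hne, hcon⟩
  obtain ⟨D, hD, ⟨d, hdD⟩, hDC⟩ := h1
  by_contra hcon
  push Not at hcon
  apply hDC
  refine Subset.antisymm hD.1 ?_
  refine atoms_min hat ⟨hD.1.trans (atoms_subset hat), fun a ha b hb hab => ?_⟩ ⟨d, hD.1 hdD, hdD⟩
  have hbC : b ∈ C := (atoms_closed hat).2 a (hD.1 ha) b hb hab
  by_contra hbD
  have hH : ¬ H.Adj a b := fun h => hbD (hD.2 a ha b hbC h)
  obtain ⟨v, hv, hvC⟩ := hcon _ (hE a b hab hH)
  rw [Sym2.mem_iff] at hv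
  rcases hv with rfl | rfl
  · exact hvC (hD.1 ha)
  · exact hvC hbC

lemma boundE {H : SimpleGraph V} {E' : Finset (Sym2 V)} (hst : Str G S T) (hd : Disjoint S T)
    (hE : ∀ u v, G.Adj u v → ¬ H.Adj u v → s(u, v) ∈ E') :
    ∑ x ∈ T, (Ph G H E' S T x).card + (dropped G H S T).card ≤ E'.card := by
  classical
  rcases isEmpty_or_nonempty V with hV | hV
  · have h1 : dropped G H S T = ∅ := by
      rw [Finset.eq_empty_iff_forall_notMem]
      intro C hC
      obtain ⟨v, -⟩ := atoms_nonempty (mem_oc.1 (mem_O3.1 (mem_dropped.1 hC).1).1).1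
      exact hV.elim v
    have h2 : T = ∅ := by
      rw [Finset.eq_empty_iff_forall_notMem]
      intro v _
      exact hV.elim v
    subst h2
    rw [h1]
    simp
  have hV2 : Nonempty (Sym2 V) := ⟨s(hV.some, hV.some)⟩
  have hch : ∀ C ∈ dropped G H S T, ∃ e, e ∈ E' ∧ ∀ v ∈ e, v ∈ C := fun C hC =>
    dropped_edge hE hC
  choose! ps hps using hch
  have hinj : Set.InjOn ps (dropped G H S T) := by
    intro C hC D hD hCD
    have h1 := (hps C hC).2
    have h2 := (hps D hD).2
    rw [hCD] at h1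
    obtain ⟨v, hv⟩ : ∃ v, v ∈ ps D := by
      induction h : ps D using Sym2.ind with
      | _ a b => exact ⟨a, by simp⟩
    exact oc_eq (mem_O3.1 (mem_dropped.1 (mem_coe.1 hC)).1).1
      (mem_O3.1 (mem_dropped.1 (mem_coe.1 hD)).1).1 (h1 v hv) (h2 v hv)
  have hpd : ∀ x ∈ T, ∀ z ∈ T, x ≠ z → Disjoint (Ph G H E' S T x) (Ph G H E' S T z) := by
    intro x hx z hz hxz
    rw [Finset.disjoint_left]
    intro e he1 he2
    obtain ⟨-, heG, y, hy, hye⟩ := mem_Ph.1 he1
    obtain ⟨-, -, y', hy', hye'⟩ := mem_Ph.1 he2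
    obtain ⟨hne, hnadj⟩ := XX_no_edge hst hd hx hz hxz (YY_sub hy) (YY_sub hy')
    have h1 : e = s(y, y') := (Sym2.mem_and_mem_iff hne).1 ⟨hye, hye'⟩
    rw [h1, SimpleGraph.mem_edgeSet] at heG
    exact hnadj heG
  have hc1 : (T.biUnion (fun x => Ph G H E' S T x)).card = ∑ x ∈ T, (Ph G H E' S T x).card :=
    Finset.card_biUnion hpd
  have hc2 : ((dropped G H S T).image ps).card = (dropped G H S T).card :=
    card_image_of_injOn hinj
  have hdj : Disjoint (T.biUnion (fun x => Ph G H E' S T x)) ((dropped G H S T).image ps) := by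
    rw [Finset.disjoint_left]
    intro e he1 he2
    rw [mem_biUnion] at he1
    rw [mem_image] at he2
    obtain ⟨x, hx, he⟩ := he1
    obtain ⟨C, hC, rfl⟩ := he2
    obtain ⟨-, -, y, hy, hye⟩ := mem_Ph.1 he
    have hyC := (hps C hC).2 y hye
    have hC3 := mem_O3.1 (mem_dropped.1 hC).1
    rcases mem_XX.1 (YY_sub hy) with rfl | ⟨D, hD, hD1, -, hyD⟩
    · exact (oc_not_mem hC3.1 hyC).2 hx
    · rw [oc_eq hC3.1 hD hyC hyD] at hC3
      exact hC3.2 hD1
  rw [← hc1, ← hc2, ← card_union_of_disjoint hdj]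
  refine card_le_card ?_
  intro e he
  rw [mem_union, mem_biUnion, mem_image] at he
  rcases he with ⟨x, -, he⟩ | ⟨C, hC, rfl⟩
  · exact (mem_Ph.1 he).1
  · exact (hps C hC).1

/-- The local bound. -/
lemma boundD {H : SimpleGraph V} (hst : Str G S T) (hd : Disjoint S T) (hH : H ≤ G) {x : V}
    (hx : x ∈ T) :
    (nbh H (YY G H S T x)).card ≤ (nbh H (YY G H S T x) ∩ S).card +
      (by classical exact ((kept G H S T).filter (fun C => AdjS H (YY G H S T x) C)).card) +
      ((dropped G H S T).filter (fun C => (nb G C x).Nonempty)).card := by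
  classical
  set N := nbh H (YY G H S T x) with hN
  have h1 : ∀ w ∈ N \ S, ∃ C, C ∈ O3 G S T ∧ nb G C x = {w} := by
    intro w hw
    rw [mem_sdiff] at hw
    rcases nbh_YY hst hd hH hx hw.1 with h | ⟨C, h1, h2⟩
    · exact absurd h hw.2
    · exact ⟨C, h1, h2⟩
  choose! f hf using h1
  have h2 : (N \ S).card ≤ (((kept G H S T).filter (fun C => AdjS H (YY G H S T x) C)) ∪
      ((dropped G H S T).filter (fun C => (nb G C x).Nonempty))).card := by
    refine Finset.card_le_card_of_injOn f ?_ ?_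
    · intro w hw
      have h3 := hf w hw
      have hwN := (mem_sdiff.1 (mem_coe.1 hw)).1
      have hwC : w ∈ f w := (mem_nb.1 (by rw [h3.2]; exact mem_singleton_self w)).1
      rw [mem_coe, mem_union, mem_filter, mem_filter, mem_kept, mem_dropped]
      by_cases hc : Conn H (f w)
      · left
        obtain ⟨-, y, hy, hyw⟩ := mem_nbh.1 hwN
        exact ⟨⟨h3.1, hc⟩, y, hy, w, hwC, hyw⟩
      · right
        exact ⟨⟨h3.1, hc⟩, by rw [h3.2]; exact singleton_nonempty w⟩
    · intro w hw w' hw' heq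
      have h3 := (hf w hw).2
      have h4 := (hf w' hw').2
      rw [heq, h4] at h3
      exact (singleton_injective h3).symm
  have h3 : N.card = (N ∩ S).card + (N \ S).card := (card_inter_add_card_sdiff N S).symm
  have h4 := card_union_le ((kept G H S T).filter (fun C => AdjS H (YY G H S T x) C))
    ((dropped G H S T).filter (fun C => (nb G C x).Nonempty))
  omega

lemma sum_dropped (H : SimpleGraph V) :
    ∑ x ∈ T, ((dropped G H S T).filter (fun C => (nb G C x).Nonempty)).card ≤
      ∑ C ∈ dropped G H S T, ee G C T := by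
  classical
  simp only [Finset.card_filter]
  rw [Finset.sum_comm]
  refine Finset.sum_le_sum fun C _ => ?_
  rw [ee_comm]
  unfold ee
  refine Finset.sum_le_sum fun x _ => ?_
  by_cases h : (nb G C x).Nonempty
  · rw [if_pos h]
    exact card_pos.2 h
  · rw [if_neg h]
    exact Nat.zero_le _

end Pool.Agent.TWF
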