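import Pool.Agent.TWF.Belck

set_option autoImplicit false
set_option linter.unusedSectionVars false

/-!
# The structure of a minimal barrier
-/

open Finset

namespace Pool.Agent.TWF

variable {V : Type*} [Fintype V] [DecidableEq V] {G : SimpleGraph V} {S T : Finset V}

lemma compl_eq (h : Disjoint S T) : (Sᶜ : Finset V) = T ∪ (S ∪ T)ᶜ := by
  ext x
  have := Finset.disjoint_left.1 h
  simp only [mem_compl, mem_union]
  constructor
  · intro h1
    by_cases hT : x ∈ T
    · exact Or.inl hT
    · right; tauto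
  · rintro (h1 | h1)
    · intro h2; exact this h2 h1
    · tauto

lemma disj_compl : Disjoint T ((S ∪ T)ᶜ) := by
  rw [Finset.disjoint_left]
  intro x hx hx2
  rw [mem_compl, mem_union] at hx2
  exact hx2 (Or.inr hx)

lemma ee_atoms (G : SimpleGraph V) (T R : Finset V) :
    ee G T R = ∑ C ∈ atoms G R, ee G C T := by
  rw [ee_comm]
  unfold ee
  rw [sum_atoms]

lemma ee_parity (h : Disjoint S T) : Even (ee G T Sᶜ + (oc G S T).card) := by
  rw [compl_eq h, ee_union_right G _ disj_compl, ee_atoms G T (S ∪ T)ᶜ, add_assoc]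
  refine (ee_self_even G T).add ?_
  have h1 := Finset.odd_sum_iff_odd_card_odd (s := atoms G (S ∪ T)ᶜ) (fun C => ee G C T)
  have h2 : (oc G S T).card = ((atoms G (S ∪ T)ᶜ).filter (fun C => Odd (ee G C T))).card := rfl
  rw [← h2] at h1
  rcases Nat.even_or_odd (oc G S T).card with h3 | h3
  · refine Even.add ?_ h3
    rw [← Nat.not_odd_iff_even, h1, Nat.not_odd_iff_even]
    exact h3
  · exact (h1.2 h3).add_odd h3

lemma ee_erase {x : V} (hx : x ∈ T) (B : Finset V) :
    ee G T B = ee G (T.erase x) B + (nb G B x).card := by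
  unfold ee
  rw [Finset.sum_erase_add _ _ hx]

lemma ee_single {C : Finset V} {x : V} : ee G {x} C = (nb G C x).card := by
  unfold ee
  simp

lemma nb_empty {C : Finset V} {x : V} (h : ¬ (nb G C x).Nonempty) :
    ∀ a ∈ C, ¬ G.Adj a x := by
  intro a ha hax
  exact h ⟨a, mem_nb.2 ⟨ha, hax.symm⟩⟩

/-- The sum over the odd components. -/
lemma sum_oc_le (h : Disjoint S T) : ∑ C ∈ oc G S T, ee G C T ≤ ee G T Sᶜ := by
  rw [compl_eq h, ee_union_right G _ disj_compl, ee_atoms G T (S ∪ T)ᶜ]
  refine le_trans ?_ (Nat.le_add_left _ _)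
  refine Finset.sum_le_sum_of_subset ?_
  exact filter_subset _ _

/-- The barrier with the least `T`. -/
theorem barrier_min (G : SimpleGraph V) (hdeg : ∀ v, ∃ w, G.Adj v w)
    (h : ¬ ∃ F : SimpleGraph V, F ≤ G ∧ ∀ v, {w | F.Adj v w}.ncard = 2) :
    ∃ S T : Finset V, Disjoint S T ∧
      2 * S.card + ee G T Sᶜ + 2 ≤ 2 * T.card + (oc G S T).card ∧
      ∀ x ∈ T, ∀ w, w ∉ S → G.Adj x w → ∃ C ∈ oc G S T, nb G C x = {w} := by
  classical
  have hex : ∃ n : ℕ, ∃ S T : Finset V, T.card = n ∧ Disjoint S T ∧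
      2 * S.card + ee G T Sᶜ < 2 * T.card + (oc G S T).card := by
    obtain ⟨S, T, h1, h2⟩ := belck_lt G hdeg h
    exact ⟨_, S, T, rfl, h1, h2⟩
  obtain ⟨S, T, hn, hd, hlt⟩ := Nat.find_spec hex
  have hle : 2 * S.card + ee G T Sᶜ + 2 ≤ 2 * T.card + (oc G S T).card := by
    obtain ⟨k, hk⟩ := ee_parity (G := G) hd
    omega
  refine ⟨S, T, hd, hle, fun x hx => ?_⟩
  set K := (oc G S T).filter (fun C => (nb G C x).Nonempty) with hK
  have hmin : (nb G Sᶜ x).card ≤ K.card := by
    by_contra hcon
    push Not at hcon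
    have hTc : (T.erase x).card + 1 = T.card := card_erase_add_one hx
    refine Nat.find_min hex (m := (T.erase x).card) (by omega) ⟨S, T.erase x, rfl, ?_, ?_⟩
    · exact Finset.disjoint_of_subset_right (erase_subset _ _) hd
    · have hins : (S ∪ T.erase x)ᶜ = insert x (S ∪ T)ᶜ := by
        ext y
        have := Finset.disjoint_right.1 hd hx
        simp only [mem_compl, mem_union, mem_erase, mem_insert]
        by_cases hy : y = x
        · subst hy; simp [this]
        · simp [hy]
      have hsub : (oc G S T) \ K ⊆ oc G S (T.erase x) := by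
        intro C hC
        rw [mem_sdiff, hK, mem_filter] at hC
        have hCoc := hC.1
        have hno : ¬ (nb G C x).Nonempty := fun h' => hC.2 ⟨hCoc, h'⟩
        rw [mem_oc] at hCoc ⊢
        refine ⟨atoms_persist (by rw [hins]; exact subset_insert _ _) hCoc.1 ?_, ?_⟩
        · intro a ha b hb hab
          rw [hins, mem_insert] at hb
          rcases hb with rfl | hb
          · exact absurd hab (nb_empty hno a ha)
          · exact (atoms_closed hCoc.1).2 a ha b hb hab
        · have h1 := ee_erase (G := G) hx C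
          rw [Finset.not_nonempty_iff_eq_empty.1 hno, card_empty, add_zero] at h1
          rw [ee_comm, ← h1, ee_comm]
          exact hCoc.2
      have h2 : (oc G S T).card - K.card ≤ (oc G S (T.erase x)).card :=
        (Finset.le_card_sdiff K (oc G S T)).trans (card_le_card hsub)
      have h3 := ee_erase (G := G) hx Sᶜ
      omega
  -- the representatives
  intro w hwS hxw
  have hrep : ∀ C ∈ K, ∃ y, y ∈ nb G C x := by
    intro C hC
    rw [hK, mem_filter] at hC
    exact hC.2
  have : Nonempty V := ⟨x⟩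
  choose! rep hrep using hrep
  have hinj : Set.InjOn rep K := by
    intro C hC D hD hCD
    have hC' : C ∈ K := hC
    have hD' : D ∈ K := hD
    have h1 := (mem_nb.1 (hrep C hC')).1
    have h2 := (mem_nb.1 (hrep D hD')).1
    rw [hCD] at h1
    rw [hK, mem_filter, mem_oc] at hC' hD'
    exact atoms_eq hC'.1.1 hD'.1.1 h1 h2
  have himg : K.image rep ⊆ nb G Sᶜ x := by
    intro y hy
    rw [mem_image] at hy
    obtain ⟨C, hC, rfl⟩ := hy
    have h1 := mem_nb.1 (hrep C hC)
    rw [hK, mem_filter, mem_oc] at hC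
    refine mem_nb.2 ⟨?_, h1.2⟩
    have h2 := atoms_subset hC.1.1 h1.1
    rw [mem_compl, mem_union, not_or] at h2
    rw [mem_compl]
    exact h2.1
  have heq : K.image rep = nb G Sᶜ x := by
    refine Finset.eq_of_subset_of_card_le himg ?_
    rw [card_image_of_injOn hinj]
    exact hmin
  have hall : ∀ y, y ∈ nb G Sᶜ x → ∃ C ∈ K, rep C = y := by
    intro y hy
    rw [← heq, mem_image] at hy
    exact hy
  obtain ⟨C, hC, hCw⟩ := hall w (mem_nb.2 ⟨by simpa using hwS, hxw⟩)
  have hC' := hC
  rw [hK, mem_filter] at hC'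
  refine ⟨C, hC'.1, ?_⟩
  ext y
  rw [mem_singleton]
  constructor
  · intro hy
    have hy' := mem_nb.1 hy
    have hyS : y ∈ nb G Sᶜ x := by
      refine mem_nb.2 ⟨?_, hy'.2⟩
      have h2 := atoms_subset (mem_oc.1 hC'.1).1 hy'.1
      rw [mem_compl, mem_union, not_or] at h2
      rw [mem_compl]
      exact h2.1
    obtain ⟨D, hD, hDy⟩ := hall y hyS
    have h3 := (mem_nb.1 (hrep D hD)).1
    rw [hDy] at h3
    have hD' := hD
    rw [hK, mem_filter] at hD'
    have h4 : D = C := atoms_eq (mem_oc.1 hD'.1).1 (mem_oc.1 hC'.1).1 h3 hy'.1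
    rw [← hDy, h4, hCw]
  · rintro rfl
    rw [← hCw]
    exact hrep C hC

end Pool.Agent.TWF
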